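import Pool.Agent.Work.MP_e4c1d4_an.Step3

/-! From a `C²` function on the closed half-space of `ℝ^{n+1}` to the data `Sol`. -/

open Set Filter Topology MeasureTheory Laplacian InnerProductSpace

namespace Pool.Agent.MP_e4c1d4_an

variable {n : ℕ}

/-- The closed half-space. -/
abbrev H (n : ℕ) : Set (EuclideanSpace ℝ (Fin (n + 1))) := {x | 0 ≤ x (Fin.last n)}

/-- the point `(x, t)`. -/
noncomputable def ι (x : Fin n → ℝ) (t : ℝ) : EuclideanSpace ℝ (Fin (n + 1)) :=
  WithLp.toLp 2 (Fin.snoc x t : Fin (n + 1) → ℝ)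

lemma ι_last (x : Fin n → ℝ) (t : ℝ) : (ι x t) (Fin.last n) = t := by
  simp [ι]

lemma ι_cont : Continuous fun p : (Fin n → ℝ) × ℝ => ι p.1 p.2 := by
  unfold ι
  exact (PiLp.continuous_toLp 2 _).comp (Continuous.finSnoc continuous_fst continuous_snd)

/-- tangential basis vector -/
noncomputable abbrev eT (i : Fin n) : EuclideanSpace ℝ (Fin (n + 1)) :=
  EuclideanSpace.single (Fin.castSucc i) (1:ℝ)

/-- normal basis vector -/
noncomputable abbrev eN (n : ℕ) : EuclideanSpace ℝ (Fin (n + 1)) :=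
  EuclideanSpace.single (Fin.last n) (1:ℝ)

lemma ι_line (x : Fin n → ℝ) (t : ℝ) (i : Fin n) (s : ℝ) :
    ι (x + s • (Pi.single i 1 : Fin n → ℝ)) t = ι x t + s • eT i := by
  ext j
  refine Fin.lastCases ?_ (fun j => ?_) j
  · simp [ι, eT]
  · by_cases h : j = i
    · subst h; simp [ι, eT]
    · simp [ι, eT, h]

lemma ι_t (x : Fin n → ℝ) (t : ℝ) : ι x t = ι x 0 + t • eN n := by
  ext j
  refine Fin.lastCases ?_ (fun j => ?_) j
  · simp [ι, eN]
  · simp [ι, eN, (Fin.castSucc_lt_last j).ne]

lemma convex_H : Convex ℝ (H n) := by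
  intro x hx y hy a b ha hb _
  simp only [H, mem_ofPred_eq] at *
  simp
  positivity

lemma interior_H : {x : EuclideanSpace ℝ (Fin (n + 1)) | 0 < x (Fin.last n)} ⊆ interior (H n) := by
  apply interior_maximal
  · intro x hx
    have hx' : 0 < x (Fin.last n) := hx
    exact hx'.le
  · exact isOpen_lt continuous_const (by fun_prop)

lemma uniqueDiffOn_H : UniqueDiffOn ℝ (H n) := by
  apply uniqueDiffOn_convex convex_H
  refine ⟨eN n, interior_H ?_⟩
  simp [eN]

lemma H_nhds {x : EuclideanSpace ℝ (Fin (n + 1))} (hx : 0 < x (Fin.last n)) : H n ∈ 𝓝 x :=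
  mem_interior_iff_mem_nhds.mp (interior_H hx)

theorem transfer {u : EuclideanSpace ℝ (Fin (n + 1)) → ℝ} (hu : ContDiffOn ℝ 2 u (H n))
    (hpde : ∀ x, 0 < x (Fin.last n) → -(Δ u x) = u x - 1)
    (hbd : ∀ x, x (Fin.last n) = 0 → u x = 0)
    (hH : ∀ M > 0, ∃ C > 0, ∀ x, 0 ≤ x (Fin.last n) → x (Fin.last n) ≤ M → 0 ≤ u x ∧ u x ≤ C) :
    ∃ (Vt Vtt : (Fin n → ℝ) → ℝ → ℝ) (D1 D2 : Fin n → (Fin n → ℝ) → ℝ → ℝ),
      Sol (fun x t => u (ι x (max t 0)) - (1 - Real.cos (max t 0))) Vt Vtt D1 D2 := by
  set G := fderivWithin ℝ u (H n) with hG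
  set G2 := fderivWithin ℝ G (H n) with hG2
  have hud := uniqueDiffOn_H (n := n)
  have hGc : ContDiffOn ℝ 1 G (H n) := hu.fderivWithin hud (by norm_num)
  have hG2c : ContinuousOn G2 (H n) := hGc.continuousOn_fderivWithin hud le_rfl
  have du : ∀ y ∈ H n, HasFDerivWithinAt u (G y) (H n) y := fun y hy =>
    (hu.differentiableOn (by norm_num) y hy).hasFDerivWithinAt
  have dG : ∀ y ∈ H n, HasFDerivWithinAt G (G2 y) (H n) y := fun y hy =>
    (hGc.differentiableOn (by norm_num) y hy).hasFDerivWithinAt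
  have hmem : ∀ (x : Fin n → ℝ) (t : ℝ), 0 ≤ t → ι x t ∈ H n := by
    intro x t ht
    simp only [H, mem_ofPred_eq, ι_last]; exact ht
  have hmem' : ∀ (x : Fin n → ℝ) (t : ℝ), ι x (max t 0) ∈ H n := fun x t =>
    hmem x _ (le_max_right _ _)
  have hιc : Continuous fun p : (Fin n → ℝ) × ℝ => ι p.1 (max p.2 0) :=
    ι_cont.comp (by fun_prop : Continuous fun p : (Fin n → ℝ) × ℝ => (p.1, max p.2 0))
  have hGcomp : Continuous fun p : (Fin n → ℝ) × ℝ => G (ι p.1 (max p.2 0)) :=
    hGc.continuousOn.comp_continuous hιc fun p => hmem' _ _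
  have hG2comp : Continuous fun p : (Fin n → ℝ) × ℝ => G2 (ι p.1 (max p.2 0)) :=
    hG2c.comp_continuous hιc fun p => hmem' _ _
  have hucomp : Continuous fun p : (Fin n → ℝ) × ℝ => u (ι p.1 (max p.2 0)) :=
    hu.continuousOn.comp_continuous hιc fun p => hmem' _ _
  -- derivative in t of the embedding
  have dι : ∀ (x : Fin n → ℝ) (t : ℝ), HasDerivAt (fun s => ι x s) (eN n) t := by
    intro x t
    have h1 : HasDerivAt (fun s : ℝ => ι x 0 + s • eN n) ((1:ℝ) • eN n) t :=
      ((hasDerivAt_id t).smul_const (eN n)).const_add _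
    rw [one_smul] at h1
    exact h1.congr_of_eventuallyEq (Filter.Eventually.of_forall fun s => ι_t x s)
  have dline : ∀ (y e : EuclideanSpace ℝ (Fin (n + 1))) , HasDerivAt (fun s : ℝ => y + s • e) e 0 := by
    intro y e
    have h1 : HasDerivAt (fun s : ℝ => y + s • e) ((1:ℝ) • e) 0 :=
      ((hasDerivAt_id (0:ℝ)).smul_const e).const_add _
    rwa [one_smul] at h1
  have hlineH : ∀ (x : Fin n → ℝ) (t : ℝ) (i : Fin n) (s : ℝ),
      ι x (max t 0) + s • eT i ∈ H n := by
    intro x t i s
    rw [← ι_line]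
    exact hmem' _ _
  refine ⟨fun x t => G (ι x (max t 0)) (eN n) - Real.sin (max t 0),
    fun x t => G2 (ι x (max t 0)) (eN n) (eN n) - Real.cos (max t 0),
    fun i x t => G (ι x (max t 0)) (eT i), fun i x t => G2 (ι x (max t 0)) (eT i) (eT i),
    ?_, ?_, ?_, ?_, ?_, ?_, ?_, ?_, ?_, ?_, ?_, ?_, ?_⟩
  · -- cV
    exact hucomp.sub (by fun_prop)
  · -- cVt
    exact (hGcomp.clm_apply continuous_const).sub (by fun_prop)
  · -- cVtt
    exact ((hG2comp.clm_apply continuous_const).clm_apply continuous_const).sub (by fun_prop)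
  · intro i
    exact hGcomp.clm_apply continuous_const
  · intro i
    exact (hG2comp.clm_apply continuous_const).clm_apply continuous_const
  · -- dt
    intro x t ht
    have h1 := (du (ι x t) (hmem x t ht)).comp_hasDerivWithinAt t
      ((dι x t).hasDerivWithinAt (s := Ici 0)) (fun s hs => hmem x s hs)
    have h2 := h1.sub (((Real.hasDerivAt_cos t).const_sub 1).hasDerivWithinAt (s := Ici 0))
    have h3 : HasDerivWithinAt (fun s => u (ι x s) - (1 - Real.cos s))
        (G (ι x (max t 0)) (eN n) - Real.sin (max t 0)) (Ici 0) t := by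
      refine h2.congr_deriv ?_
      rw [max_eq_left ht]; simp
    refine h3.congr (fun s hs => ?_) ?_
    · have hs' : (0:ℝ) ≤ s := hs
      simp only [max_eq_left hs']
    · simp only [max_eq_left ht]
  · -- dtt
    intro x t ht
    have h1 := (dG (ι x t) (hmem x t ht)).comp_hasDerivWithinAt t
      ((dι x t).hasDerivWithinAt (s := Ici 0)) (fun s hs => hmem x s hs)
    have h2 := (h1.clm_apply (hasDerivWithinAt_const t (Ici 0) (eN n))).sub
      ((Real.hasDerivAt_sin t).hasDerivWithinAt (s := Ici 0))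
    have h3 : HasDerivWithinAt (fun s => G (ι x s) (eN n) - Real.sin s)
        (G2 (ι x (max t 0)) (eN n) (eN n) - Real.cos (max t 0)) (Ici 0) t := by
      refine h2.congr_deriv ?_
      rw [max_eq_left ht]; simp
    refine h3.congr (fun s hs => ?_) ?_
    · have hs' : (0:ℝ) ≤ s := hs
      simp only [max_eq_left hs']
    · simp only [max_eq_left ht]
  · -- d1
    intro i x t
    unfold HasLineDerivAt
    simp only [ι_line]
    have h0 : ι x (max t 0) + (0:ℝ) • eT i = ι x (max t 0) := by simp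
    have hd := du (ι x (max t 0)) (hmem' x t)
    have h1 := HasFDerivWithinAt.comp_hasDerivWithinAt_of_eq (x := (0:ℝ)) hd
      ((dline (ι x (max t 0)) (eT i)).hasDerivWithinAt (s := univ))
      (fun s _ => hlineH x t i s) h0.symm
    rw [hasDerivWithinAt_univ] at h1
    exact h1.sub_const _
  · -- d2
    intro i x t
    unfold HasLineDerivAt
    simp only [ι_line]
    have h0 : ι x (max t 0) + (0:ℝ) • eT i = ι x (max t 0) := by simp
    have hd := dG (ι x (max t 0)) (hmem' x t)
    have h1 := HasFDerivWithinAt.comp_hasDerivWithinAt_of_eq (x := (0:ℝ)) hd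
      ((dline (ι x (max t 0)) (eT i)).hasDerivWithinAt (s := univ))
      (fun s _ => hlineH x t i s) h0.symm
    rw [hasDerivWithinAt_univ] at h1
    have h2 := h1.clm_apply (hasDerivAt_const (0:ℝ) (eT i))
    refine h2.congr_deriv ?_
    simp
  · -- pde
    intro x t ht
    -- first for positive t
    have hpos : ∀ t, 0 < t → ∑ i, G2 (ι x (max t 0)) (eT i) (eT i)
        + (G2 (ι x (max t 0)) (eN n) (eN n) - Real.cos (max t 0))
        + (u (ι x (max t 0)) - (1 - Real.cos (max t 0))) = 0 := by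
      intro t ht
      rw [max_eq_left ht.le]
      have hy : 0 < (ι x t) (Fin.last n) := by rw [ι_last]; exact ht
      have h1 := hpde (ι x t) hy
      have h2 : Δ u (ι x t) = ∑ j : Fin (n + 1), G2 (ι x t)
          (EuclideanSpace.single j 1) (EuclideanSpace.single j 1) := by
        rw [congrFun (laplacian_eq_iteratedFDeriv_orthonormalBasis u
          (EuclideanSpace.basisFun (Fin (n + 1)) ℝ)) (ι x t)]
        apply Finset.sum_congr rfl
        intro j _
        rw [iteratedFDeriv_two_apply]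
        simp only [EuclideanSpace.basisFun_apply, Matrix.cons_val_zero, Matrix.cons_val_one]
        have h3 : fderiv ℝ (fderiv ℝ u) (ι x t) = G2 (ι x t) := by
          rw [hG2, fderivWithin_of_mem_nhds (H_nhds hy)]
          apply Filter.EventuallyEq.fderiv_eq
          have : ∀ᶠ z in 𝓝 (ι x t), 0 < z (Fin.last n) :=
            (isOpen_lt continuous_const (by fun_prop)).mem_nhds hy
          filter_upwards [this] with z hz
          rw [hG, fderivWithin_of_mem_nhds (H_nhds hz)]
        rw [h3]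
      rw [h2, Fin.sum_univ_castSucc] at h1
      linarith
    rcases ht.eq_or_lt with h | h
    · -- t = 0 by continuity
      subst h
      have hcont : Continuous fun t : ℝ => ∑ i, G2 (ι x (max t 0)) (eT i) (eT i)
          + (G2 (ι x (max t 0)) (eN n) (eN n) - Real.cos (max t 0))
          + (u (ι x (max t 0)) - (1 - Real.cos (max t 0))) := by
        have c0 : Continuous fun t : ℝ => (x, t) := by fun_prop
        have c1 := hG2comp.comp c0
        have c2 := hucomp.comp c0
        simp only [Function.comp_def] at c1 c2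
        have c3 : ∀ e : EuclideanSpace ℝ (Fin (n + 1)),
            Continuous fun t : ℝ => G2 (ι x (max t 0)) e e := fun e =>
          (c1.clm_apply continuous_const).clm_apply continuous_const
        refine ((continuous_finsetSum _ fun i _ => c3 _).add ((c3 _).sub (by fun_prop))).add
          (c2.sub (by fun_prop))
      have hl : Tendsto (fun t : ℝ => ∑ i, G2 (ι x (max t 0)) (eT i) (eT i)
          + (G2 (ι x (max t 0)) (eN n) (eN n) - Real.cos (max t 0))
          + (u (ι x (max t 0)) - (1 - Real.cos (max t 0)))) (𝓝[>] 0) (𝓝 0) := by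
        refine tendsto_const_nhds.congr' ?_
        filter_upwards [self_mem_nhdsWithin] with s hs
        exact (hpos s hs).symm
      exact tendsto_nhds_unique ((hcont.tendsto 0).mono_left nhdsWithin_le_nhds) hl
    · exact hpos t h
  · -- zero
    intro x
    have := hbd (ι x 0) (ι_last x 0)
    simp [this]
  · -- low
    intro x t ht
    simp only [max_eq_left ht]
    obtain ⟨C, _, hC⟩ := hH (t + 1) (by linarith)
    have := (hC (ι x t) (by rw [ι_last]; exact ht) (by rw [ι_last]; linarith)).1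
    linarith
  · -- bdd
    intro T
    obtain ⟨C, _, hC⟩ := hH (|T| + 1) (by positivity)
    refine ⟨C + 2, fun x t h0 h1 => ?_⟩
    simp only [max_eq_left h0]
    have := hC (ι x t) (by rw [ι_last]; exact h0) (by
      rw [ι_last]; linarith [le_abs_self T])
    have hc1 := Real.cos_le_one t
    have hc2 := Real.neg_one_le_cos t
    rw [abs_le]
    constructor <;> linarith [this.1, this.2]

theorem final {u : EuclideanSpace ℝ (Fin (n + 1)) → ℝ} (hu : ContDiffOn ℝ 2 u (H n))
    (hpde : ∀ x, 0 < x (Fin.last n) → -(Δ u x) = u x - 1)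
    (hbd : ∀ x, x (Fin.last n) = 0 → u x = 0)
    (hH : ∀ M > 0, ∃ C > 0, ∀ x, 0 ≤ x (Fin.last n) → x (Fin.last n) ≤ M → 0 ≤ u x ∧ u x ≤ C)
    (y : EuclideanSpace ℝ (Fin (n + 1))) (hy : 0 ≤ y (Fin.last n)) :
    u y = 1 - Real.cos (y (Fin.last n)) := by
  obtain ⟨Vt, Vtt, D1, D2, hS⟩ := transfer hu hpde hbd hH
  have h1 := main hS (fun i => y (Fin.castSucc i)) (y (Fin.last n)) hy
  simp only [max_eq_left hy] at h1
  have h2 : ι (fun i => y (Fin.castSucc i)) (y (Fin.last n)) = y := by
    ext j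
    refine Fin.lastCases ?_ (fun j => ?_) j
    · simp [ι]
    · simp [ι]
  rw [h2] at h1
  linarith

end Pool.Agent.MP_e4c1d4_an
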