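import Mathlib

/-! A continuous function on `[0,2π]` all of whose Fourier coefficients of order `≥ 2` vanish is a
trigonometric polynomial of degree one. -/

open Set Filter Topology MeasureTheory

namespace Pool.Agent.MP_e4c1d4_an

lemma fourier_trig {h : ℝ → ℝ} (hc : Continuous h) (h0 : h 0 = h (2 * Real.pi))
    (hcos : ∀ m : ℕ, 2 ≤ m → ∫ t in (0:ℝ)..(2 * Real.pi), h t * Real.cos (m * t) = 0)
    (hsin : ∀ m : ℕ, 2 ≤ m → ∫ t in (0:ℝ)..(2 * Real.pi), h t * Real.sin (m * t) = 0) :
    ∃ A B C : ℝ, ∀ t ∈ Ico (0:ℝ) (2 * Real.pi), h t = A + B * Real.cos t + C * Real.sin t := by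
  have : Fact (0 < 2 * Real.pi) := ⟨by positivity⟩
  have hpi : (0:ℝ) ≤ 2 * Real.pi := by positivity
  let f : C(AddCircle (2 * Real.pi), ℂ) :=
    ⟨AddCircle.liftIco (2 * Real.pi) 0 (fun t => (h t : ℂ)),
      AddCircle.liftIco_zero_continuous (by simp [h0])
        ((Complex.continuous_ofReal.comp hc).continuousOn)⟩
  have hf : ∀ t ∈ Ico (0:ℝ) (2 * Real.pi), f (t : AddCircle (2 * Real.pi)) = (h t : ℂ) := by
    intro t ht
    exact AddCircle.liftIco_zero_coe_apply (f := fun t => (h t : ℂ)) ht
  have hfour : ∀ (m : ℤ) (t : ℝ), (fourier m (t : AddCircle (2 * Real.pi)) : ℂ)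
      = (Real.cos (m * t) : ℂ) + (Real.sin (m * t) : ℂ) * Complex.I := by
    intro m t
    rw [fourier_coe_apply]
    have h1 : (2 * (Real.pi : ℂ) * Complex.I * m * t / ((2 * Real.pi : ℝ) : ℂ))
        = ((m * t : ℝ) : ℂ) * Complex.I := by
      have : (Real.pi : ℂ) ≠ 0 := by exact_mod_cast Real.pi_ne_zero
      push_cast
      field_simp
    rw [h1, Complex.exp_mul_I]
    push_cast
    ring
  have hcoef : ∀ m : ℤ, 2 ≤ m.natAbs → fourierCoeff f m = 0 := by
    intro m hm
    rw [fourierCoeff_eq_intervalIntegral f m 0, zero_add]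
    have e1 : ∫ x in (0:ℝ)..(2 * Real.pi), (fourier (-m) (x : AddCircle (2 * Real.pi)) : ℂ)
          • f (x : AddCircle (2 * Real.pi))
        = ∫ x in (0:ℝ)..(2 * Real.pi), (((h x * Real.cos (m * x) : ℝ) : ℂ)
            - ((h x * Real.sin (m * x) : ℝ) : ℂ) * Complex.I) := by
      apply intervalIntegral.integral_congr_Ioo_of_le hpi
      intro x hx
      simp only []
      rw [hf x (Ioo_subset_Ico_self hx), hfour]
      push_cast
      rw [neg_mul, Complex.cos_neg, Complex.sin_neg, smul_eq_mul]
      ring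
    have hcm : Continuous fun x => h x * Real.cos (m * x) := by fun_prop
    have hsm : Continuous fun x => h x * Real.sin (m * x) := by fun_prop
    have e2 : ∫ x in (0:ℝ)..(2 * Real.pi), h x * Real.cos (m * x) = 0 := by
      rcases Int.natAbs_eq m with hm' | hm'
      · rw [hm']; exact hcos _ hm
      · rw [hm']
        have := hcos _ hm
        simpa [neg_mul, Real.cos_neg] using this
    have e3 : ∫ x in (0:ℝ)..(2 * Real.pi), h x * Real.sin (m * x) = 0 := by
      rcases Int.natAbs_eq m with hm' | hm'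
      · rw [hm']; exact hsin _ hm
      · rw [hm']
        have := hsin _ hm
        have h3 : ∀ x : ℝ, h x * Real.sin (((-(m.natAbs : ℤ) : ℤ) : ℝ) * x)
            = -(h x * Real.sin ((m.natAbs : ℝ) * x)) := by
          intro x
          rw [Int.cast_neg, Int.cast_natCast, neg_mul, Real.sin_neg, mul_neg]
        simp only [h3]
        rw [intervalIntegral.integral_neg, this, neg_zero]
    rw [e1, intervalIntegral.integral_sub, intervalIntegral.integral_mul_const,
      intervalIntegral.integral_ofReal, intervalIntegral.integral_ofReal, e2, e3]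
    · simp
    · exact (Complex.continuous_ofReal.comp hcm).intervalIntegrable _ _
    · exact ((Complex.continuous_ofReal.comp hsm).mul continuous_const).intervalIntegrable _ _
  have hzero : ∀ m : ℤ, m ∉ ({-1, 0, 1} : Finset ℤ) → fourierCoeff f m = 0 := by
    intro m hm
    apply hcoef
    simp only [Finset.mem_insert, Finset.mem_singleton, not_or] at hm
    omega
  have hsummable : Summable (fourierCoeff f) :=
    summable_of_ne_finset_zero (s := {-1, 0, 1}) hzero
  refine ⟨(fourierCoeff f 0).re, (fourierCoeff f (-1)).re + (fourierCoeff f 1).re,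
    (fourierCoeff f (-1)).im - (fourierCoeff f 1).im, ?_⟩
  intro t ht
  have h1 := has_pointwise_sum_fourier_series_of_summable hsummable
    (t : AddCircle (2 * Real.pi))
  have h2 : HasSum (fun i => fourierCoeff f i • (fourier i (t : AddCircle (2 * Real.pi)) : ℂ))
      (∑ i ∈ ({-1, 0, 1} : Finset ℤ),
        fourierCoeff f i • (fourier i (t : AddCircle (2 * Real.pi)) : ℂ)) :=
    hasSum_sum_of_ne_finset_zero fun i hi => by rw [hzero i hi, zero_smul]
  have h3 := h1.unique h2
  rw [hf t ht] at h3
  have h4 := congrArg Complex.re h3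
  rw [Complex.ofReal_re] at h4
  rw [h4]
  rw [Finset.sum_insert (by decide), Finset.sum_insert (by decide), Finset.sum_singleton]
  simp only [hfour, smul_eq_mul]
  simp [Complex.cos_ofReal_re, Complex.sin_ofReal_re]
  ring

end Pool.Agent.MP_e4c1d4_an
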