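import Mathlib

/-! A maximum principle on `ℝ^n` for functions with second directional derivatives along the
coordinate directions, and differentiation of parametric integrals. -/

open Set Filter Topology MeasureTheory

namespace Pool.Agent.MP_e4c1d4_an

/-- One-dimensional second derivative test. -/
lemma second_deriv_nonpos {g g' : ℝ → ℝ} {a g'' : ℝ}
    (hmax : ∀ s, g s ≤ g a) (hg : ∀ s, HasDerivAt g (g' s) s) (hg' : HasDerivAt g' g'' a) :
    g'' ≤ 0 := by
  by_contra h
  push Not at h
  have h0 : g' a = 0 :=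
    IsLocalMax.hasDerivAt_eq_zero (Filter.Eventually.of_forall hmax) (hg a)
  have hd : deriv g = g' := funext fun s => (hg s).deriv
  have hmin : IsLocalMin g a := isLocalMin_of_deriv_deriv_pos
    (by rw [hd, hg'.deriv]; exact h) (by rw [hd, h0]) (hg a).continuousAt
  have heq : ∀ᶠ s in 𝓝 a, g s = g a := hmin.mono (fun s hs => le_antisymm (hmax s) hs)
  have heq' : ∀ᶠ s in 𝓝 a, g' s = 0 := by
    filter_upwards [eventually_eventually_nhds.mpr heq] with s hs
    have : HasDerivAt g 0 s := (hasDerivAt_const s (g a)).congr_of_eventuallyEq hs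
    exact (hg s).unique this
  have : HasDerivAt g' 0 a := (hasDerivAt_const a (0:ℝ)).congr_of_eventuallyEq heq'
  linarith [hg'.unique this]

/-- From line derivatives at all points to an honest derivative along a line. -/
lemma hasDerivAt_line {E : Type*} [NormedAddCommGroup E] [NormedSpace ℝ E] {b b1 : E → ℝ} {v : E}
    (h : ∀ x, HasLineDerivAt ℝ b (b1 x) x v) (y : E) (s : ℝ) :
    HasDerivAt (fun r : ℝ => b (y + r • v)) (b1 (y + s • v)) s := by
  have h1 : HasDerivAt (fun t : ℝ => b ((y + s • v) + t • v)) (b1 (y + s • v)) (s - s) := by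
    rw [sub_self]; exact h (y + s • v)
  have h2 := h1.comp_sub_const s s
  refine h2.congr_of_eventuallyEq (Filter.Eventually.of_forall fun r => ?_)
  simp only []
  congr 1
  rw [add_assoc, ← add_smul]
  congr 2
  ring

lemma sum_sq_line {n : ℕ} (y : Fin n → ℝ) (i : Fin n) (s : ℝ) :
    ∑ j, ((y + s • (Pi.single i 1 : Fin n → ℝ)) j) ^ 2 = ∑ j, (y j) ^ 2 + 2 * s * y i + s ^ 2 := by
  have h : ∀ j, ((y + s • (Pi.single i 1 : Fin n → ℝ)) j) ^ 2
      = (y j) ^ 2 + (if j = i then 2 * s * y i + s ^ 2 else 0) := by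
    intro j
    by_cases hj : j = i
    · subst hj; simp; ring
    · simp [hj]
  rw [Finset.sum_congr rfl (fun j _ => h j), Finset.sum_add_distrib]
  simp
  ring

lemma norm_sq_le_sum_sq {n : ℕ} (y : Fin n → ℝ) : ‖y‖ ^ 2 ≤ ∑ j, (y j) ^ 2 := by
  have h : ‖y‖ ≤ Real.sqrt (∑ j, (y j) ^ 2) := by
    rw [pi_norm_le_iff_of_nonneg (Real.sqrt_nonneg _)]
    intro i
    apply Real.le_sqrt_of_sq_le
    rw [Real.norm_eq_abs, sq_abs]
    exact Finset.single_le_sum (f := fun j => (y j) ^ 2) (fun j _ => sq_nonneg _)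
      (Finset.mem_univ i)
  calc ‖y‖ ^ 2 ≤ (Real.sqrt (∑ j, (y j) ^ 2)) ^ 2 := by gcongr
    _ = _ := Real.sq_sqrt (Finset.sum_nonneg fun j _ => sq_nonneg _)

/-- **Maximum principle.** -/
lemma max_principle {n : ℕ} {b : (Fin n → ℝ) → ℝ} {b1 b2 : Fin n → (Fin n → ℝ) → ℝ}
    {c k C : ℝ} (hc : 0 < c) (hbc : Continuous b) (hbC : ∀ x, b x ≤ C)
    (h1 : ∀ i x, HasLineDerivAt ℝ b (b1 i x) x (Pi.single i 1))
    (h2 : ∀ i x, HasLineDerivAt ℝ (b1 i) (b2 i x) x (Pi.single i 1))
    (hineq : ∀ x, c * b x - k ≤ ∑ i, b2 i x) (x : Fin n → ℝ) : b x ≤ k / c := by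
  have key : ∀ ε > 0, b x ≤ (2 * n * ε + k) / c + ε * ∑ j, (x j) ^ 2 := by
    intro ε hε
    set f : (Fin n → ℝ) → ℝ := fun x => b x - ε * ∑ j, (x j) ^ 2 with hf
    have hfc : Continuous f := by
      rw [hf]; fun_prop
    have hlim : Tendsto f (cocompact (Fin n → ℝ)) atBot := by
      have h1 : Tendsto (fun y : Fin n → ℝ => C - ε * ‖y‖ ^ 2) (cocompact (Fin n → ℝ)) atBot := by
        have h2 : Tendsto (fun y : Fin n → ℝ => ε * ‖y‖ ^ 2) (cocompact (Fin n → ℝ)) atTop := by
          apply Tendsto.const_mul_atTop hε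
          exact (tendsto_pow_atTop (by norm_num)).comp tendsto_norm_cocompact_atTop
        exact tendsto_atBot_add_const_left _ C (tendsto_neg_atTop_atBot.comp h2) |>.congr
          (fun y => by simp [sub_eq_add_neg])
      refine tendsto_atBot_mono (fun y => ?_) h1
      simp only [hf]
      have := norm_sq_le_sum_sq y
      have h3 := hbC y
      nlinarith
    obtain ⟨y, hy⟩ := hfc.exists_forall_ge hlim
    have hder : ∀ i, b2 i y - 2 * ε ≤ 0 := by
      intro i
      apply second_deriv_nonpos (g := fun s => f (y + s • (Pi.single i 1 : Fin n → ℝ)))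
        (g' := fun s => b1 i (y + s • (Pi.single i 1 : Fin n → ℝ)) - ε * (2 * y i + 2 * s))
        (a := 0)
      · intro s
        simpa using hy (y + s • (Pi.single i 1 : Fin n → ℝ))
      · intro s
        simp only [hf, sum_sq_line]
        have ha := hasDerivAt_line (h1 i) y s
        have hb : HasDerivAt (fun s : ℝ => ∑ j, (y j) ^ 2 + 2 * s * y i + s ^ 2)
            (2 * y i + 2 * s) s := by
          have h3 : HasDerivAt (fun s : ℝ => 2 * s * y i) (2 * y i) s := by
            simpa using ((hasDerivAt_id s).const_mul 2).mul_const (y i)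
          have h4 : HasDerivAt (fun s : ℝ => s ^ 2) (2 * s) s := by
            simpa using hasDerivAt_pow 2 s
          exact (h3.const_add _).add h4
        exact ha.sub (hb.const_mul ε)
      · have ha := hasDerivAt_line (h2 i) y 0
        have hb : HasDerivAt (fun s : ℝ => ε * (2 * y i + 2 * s)) (ε * 2) 0 := by
          have : HasDerivAt (fun s : ℝ => 2 * y i + 2 * s) 2 0 := by
            simpa using ((hasDerivAt_id (0:ℝ)).const_mul 2).const_add (2 * y i)
          exact this.const_mul ε
        have hc := ha.sub hb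
        simp only [zero_smul, add_zero] at hc
        rw [mul_comm 2 ε]
        exact hc
    have hsum : ∑ i, b2 i y ≤ 2 * n * ε := by
      calc ∑ i, b2 i y ≤ ∑ _i : Fin n, 2 * ε := Finset.sum_le_sum fun i _ => by linarith [hder i]
        _ = 2 * n * ε := by simp; ring
    have hby : b y ≤ (2 * n * ε + k) / c := by
      rw [le_div_iff₀ hc]
      linarith [hineq y]
    have h3 := hy x
    simp only [hf] at h3
    have h4 : 0 ≤ ε * ∑ j, (y j) ^ 2 := mul_nonneg hε.le (Finset.sum_nonneg fun j _ => sq_nonneg _)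
    linarith
  -- let ε → 0
  have hlim : Tendsto (fun ε : ℝ => (2 * n * ε + k) / c + ε * ∑ j, (x j) ^ 2) (𝓝[>] 0)
      (𝓝 ((2 * n * 0 + k) / c + 0 * ∑ j, (x j) ^ 2)) := by
    apply Tendsto.mono_left _ nhdsWithin_le_nhds
    apply Continuous.tendsto
    fun_prop
  have h5 : b x ≤ (2 * n * 0 + k) / c + 0 * ∑ j, (x j) ^ 2 :=
    ge_of_tendsto hlim (by
      filter_upwards [self_mem_nhdsWithin] with ε hε using key ε hε)
  simpa using h5

/-- Differentiation of a parametric interval integral along a line. -/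
lemma hasLineDerivAt_param {E : Type*} [NormedAddCommGroup E] [NormedSpace ℝ E]
    {F F' : E → ℝ → ℝ} {v : E}
    (hF : Continuous (Function.uncurry F)) (hF' : Continuous (Function.uncurry F'))
    (h : ∀ x t, HasLineDerivAt ℝ (fun y => F y t) (F' x t) x v) (a b : ℝ) (x : E) :
    HasLineDerivAt ℝ (fun y => ∫ t in a..b, F y t) (∫ t in a..b, F' x t) x v := by
  have hG' : Continuous (fun p : ℝ × ℝ => F' (x + p.1 • v) p.2) :=
    hF'.comp ((by fun_prop : Continuous fun p : ℝ × ℝ => ((x + p.1 • v), p.2)))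
  obtain ⟨M, hM⟩ : ∃ M, ∀ p ∈ (Icc (-1) 1 ×ˢ uIcc a b : Set (ℝ × ℝ)),
      ‖F' (x + p.1 • v) p.2‖ ≤ M :=
    (isCompact_Icc.prod isCompact_uIcc).exists_bound_of_continuousOn hG'.continuousOn
  have hcont : ∀ y, Continuous (F y) := fun y => hF.comp (by fun_prop : Continuous fun t => (y, t))
  have hcont' : ∀ y, Continuous (F' y) :=
    fun y => hF'.comp (by fun_prop : Continuous fun t => (y, t))
  have := (intervalIntegral.hasDerivAt_integral_of_dominated_loc_of_deriv_le (μ := volume)
    (F := fun s t => F (x + s • v) t) (F' := fun s t => F' (x + s • v) t) (x₀ := (0:ℝ))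
    (a := a) (b := b) (s := Icc (-1) 1) (bound := fun _ => M)
    (Icc_mem_nhds (by norm_num) (by norm_num))
    (Filter.Eventually.of_forall fun s => (hcont _).aestronglyMeasurable)
    ((hcont _).intervalIntegrable _ _) ((hcont' _).aestronglyMeasurable)
    (Filter.Eventually.of_forall fun t ht s hs => hM (s, t) ⟨hs, uIoc_subset_uIcc ht⟩)
    (by simp)
    (Filter.Eventually.of_forall fun t ht s hs =>
      hasDerivAt_line (b := fun y => F y t) (b1 := fun y => F' y t) (fun x => h x t) x s)).2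
  simpa [HasLineDerivAt] using this

end Pool.Agent.MP_e4c1d4_an
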