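import Pool.Agent.Work.MP_e4c1d4_an.MaxPrinciple

/-! The data of a difference `V = u - u₀` of solutions, in coordinates `(x, t)`, and its basic
identities. -/

open Set Filter Topology MeasureTheory

namespace Pool.Agent.MP_e4c1d4_an

/-- `V = u - (1 - cos t)` with its `t`-derivatives `Vt`, `Vtt` and its first and second derivatives
`D1 i`, `D2 i` along the `i`-th tangential direction. -/
structure Sol {n : ℕ} (V Vt Vtt : (Fin n → ℝ) → ℝ → ℝ)
    (D1 D2 : Fin n → (Fin n → ℝ) → ℝ → ℝ) : Prop where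
  cV : Continuous (Function.uncurry V)
  cVt : Continuous (Function.uncurry Vt)
  cVtt : Continuous (Function.uncurry Vtt)
  cD1 : ∀ i, Continuous (Function.uncurry (D1 i))
  cD2 : ∀ i, Continuous (Function.uncurry (D2 i))
  dt : ∀ x t, 0 ≤ t → HasDerivWithinAt (V x) (Vt x t) (Ici 0) t
  dtt : ∀ x t, 0 ≤ t → HasDerivWithinAt (Vt x) (Vtt x t) (Ici 0) t
  d1 : ∀ i x t, HasLineDerivAt ℝ (fun y => V y t) (D1 i x t) x (Pi.single i 1)
  d2 : ∀ i x t, HasLineDerivAt ℝ (fun y => D1 i y t) (D2 i x t) x (Pi.single i 1)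
  pde : ∀ x t, 0 ≤ t → ∑ i, D2 i x t + Vtt x t + V x t = 0
  zero : ∀ x, V x 0 = 0
  low : ∀ x t, 0 ≤ t → -(1 - Real.cos t) ≤ V x t
  bdd : ∀ T, ∃ C, ∀ x t, 0 ≤ t → t ≤ T → |V x t| ≤ C

variable {n : ℕ} {V Vt Vtt : (Fin n → ℝ) → ℝ → ℝ} {D1 D2 : Fin n → (Fin n → ℝ) → ℝ → ℝ}

namespace Sol

lemma contV (hS : Sol V Vt Vtt D1 D2) (x : Fin n → ℝ) : Continuous (V x) :=
  hS.cV.comp (by fun_prop : Continuous fun t => (x, t))

lemma contVt (hS : Sol V Vt Vtt D1 D2) (x : Fin n → ℝ) : Continuous (Vt x) :=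
  hS.cVt.comp (by fun_prop : Continuous fun t => (x, t))

lemma contVtt (hS : Sol V Vt Vtt D1 D2) (x : Fin n → ℝ) : Continuous (Vtt x) :=
  hS.cVtt.comp (by fun_prop : Continuous fun t => (x, t))

lemma contD2 (hS : Sol V Vt Vtt D1 D2) (i : Fin n) (x : Fin n → ℝ) : Continuous (D2 i x) :=
  (hS.cD2 i).comp (by fun_prop : Continuous fun t => (x, t))

/-- One-dimensional Green identity in the variable `t`. -/
lemma green (hS : Sol V Vt Vtt D1 D2) (x : Fin n → ℝ) {η η' η'' : ℝ → ℝ}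
    (h1 : ∀ t, HasDerivAt η (η' t) t) (h2 : ∀ t, HasDerivAt η' (η'' t) t)
    (hc : Continuous η'') {T : ℝ} (hT : 0 ≤ T) :
    ∫ t in (0:ℝ)..T, (Vtt x t * η t - V x t * η'' t)
      = (Vt x T * η T - V x T * η' T) - (Vt x 0 * η 0 - V x 0 * η' 0) := by
  have hη : Continuous η := continuous_iff_continuousAt.mpr fun t => (h1 t).continuousAt
  have hη' : Continuous η' := continuous_iff_continuousAt.mpr fun t => (h2 t).continuousAt
  have c1 := hS.contV x
  have c2 := hS.contVt x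
  have c3 := hS.contVtt x
  apply intervalIntegral.integral_eq_sub_of_hasDerivAt_of_le hT
    (f := fun t => Vt x t * η t - V x t * η' t)
  · exact ((c2.mul hη).sub (c1.mul hη')).continuousOn
  · intro t ht
    have hn : Ici (0:ℝ) ∈ 𝓝 t := Ici_mem_nhds ht.1
    have a1 := (hS.dt x t ht.1.le).hasDerivAt hn
    have a2 := (hS.dtt x t ht.1.le).hasDerivAt hn
    have := (a2.mul (h1 t)).sub (a1.mul (h2 t))
    refine this.congr_deriv ?_
    ring
  · exact ((c3.mul hη).sub (c1.mul hc)).intervalIntegrable _ _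

/-- The tangential Laplacian of `∫ V η`. -/
lemma lap (hS : Sol V Vt Vtt D1 D2) (x : Fin n → ℝ) {η η' η'' : ℝ → ℝ}
    (h1 : ∀ t, HasDerivAt η (η' t) t) (h2 : ∀ t, HasDerivAt η' (η'' t) t)
    (hc : Continuous η'') {T : ℝ} (hT : 0 ≤ T) :
    ∑ i, ∫ t in (0:ℝ)..T, D2 i x t * η t
      = - (∫ t in (0:ℝ)..T, V x t * (η'' t + η t)) - (Vt x T * η T - V x T * η' T)
        + Vt x 0 * η 0 := by
  have hη : Continuous η := continuous_iff_continuousAt.mpr fun t => (h1 t).continuousAt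
  have c1 := hS.contV x
  have c3 := hS.contVtt x
  have e1 : ∑ i, ∫ t in (0:ℝ)..T, D2 i x t * η t = ∫ t in (0:ℝ)..T, ∑ i, D2 i x t * η t := by
    rw [intervalIntegral.integral_finsetSum]
    intro i _
    exact ((hS.contD2 i x).mul hη).intervalIntegrable _ _
  have e2 : ∫ t in (0:ℝ)..T, ∑ i, D2 i x t * η t
      = ∫ t in (0:ℝ)..T, (-(Vtt x t * η t - V x t * η'' t) - V x t * (η'' t + η t)) := by
    apply intervalIntegral.integral_congr
    intro t ht
    rw [uIcc_of_le hT] at ht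
    have := hS.pde x t ht.1
    simp only []
    rw [← Finset.sum_mul]
    linear_combination (η t) * this
  rw [e1, e2, intervalIntegral.integral_sub, intervalIntegral.integral_neg,
    hS.green x h1 h2 hc hT, hS.zero x]
  · ring
  · exact (((c3.mul hη).sub (c1.mul hc)).neg).intervalIntegrable _ _
  · exact (c1.mul (hc.add hη)).intervalIntegrable _ _

lemma cont_int (hS : Sol V Vt Vtt D1 D2) {η : ℝ → ℝ} (hη : Continuous η) (T : ℝ) :
    Continuous fun x => ∫ t in (0:ℝ)..T, V x t * η t := by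
  apply intervalIntegral.continuous_parametric_intervalIntegral_of_continuous'
  exact hS.cV.mul (hη.comp continuous_snd)

lemma cont_int2 (hS : Sol V Vt Vtt D1 D2) {η : ℝ → ℝ} (hη : Continuous η) (T : ℝ) (i : Fin n) :
    Continuous fun x => ∫ t in (0:ℝ)..T, D2 i x t * η t := by
  apply intervalIntegral.continuous_parametric_intervalIntegral_of_continuous'
  exact (hS.cD2 i).mul (hη.comp continuous_snd)

lemma cont_int1 (hS : Sol V Vt Vtt D1 D2) {η : ℝ → ℝ} (hη : Continuous η) (T : ℝ) (i : Fin n) :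
    Continuous fun x => ∫ t in (0:ℝ)..T, D1 i x t * η t := by
  apply intervalIntegral.continuous_parametric_intervalIntegral_of_continuous'
  exact (hS.cD1 i).mul (hη.comp continuous_snd)

lemma int_d1 (hS : Sol V Vt Vtt D1 D2) {η : ℝ → ℝ} (hη : Continuous η) (T : ℝ) (i : Fin n)
    (x : Fin n → ℝ) :
    HasLineDerivAt ℝ (fun x => ∫ t in (0:ℝ)..T, V x t * η t) (∫ t in (0:ℝ)..T, D1 i x t * η t)
      x (Pi.single i 1) := by
  apply hasLineDerivAt_param (F := fun x t => V x t * η t) (F' := fun x t => D1 i x t * η t)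
  · exact hS.cV.mul (hη.comp continuous_snd)
  · exact (hS.cD1 i).mul (hη.comp continuous_snd)
  · intro x t
    have := hS.d1 i x t
    unfold HasLineDerivAt at this ⊢
    exact this.mul_const (η t)

lemma int_d2 (hS : Sol V Vt Vtt D1 D2) {η : ℝ → ℝ} (hη : Continuous η) (T : ℝ) (i : Fin n)
    (x : Fin n → ℝ) :
    HasLineDerivAt ℝ (fun x => ∫ t in (0:ℝ)..T, D1 i x t * η t) (∫ t in (0:ℝ)..T, D2 i x t * η t)
      x (Pi.single i 1) := by
  apply hasLineDerivAt_param (F := fun x t => D1 i x t * η t) (F' := fun x t => D2 i x t * η t)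
  · exact (hS.cD1 i).mul (hη.comp continuous_snd)
  · exact (hS.cD2 i).mul (hη.comp continuous_snd)
  · intro x t
    have := hS.d2 i x t
    unfold HasLineDerivAt at this ⊢
    exact this.mul_const (η t)

/-- Bound for `∫ V η`. -/
lemma int_bound (_hS : Sol V Vt Vtt D1 D2) {T C : ℝ} (hT : 0 ≤ T)
    (hC : ∀ x t, 0 ≤ t → t ≤ T → |V x t| ≤ C) {η : ℝ → ℝ} {M : ℝ}
    (hM : ∀ t, 0 ≤ t → t ≤ T → |η t| ≤ M) (x : Fin n → ℝ) :
    |∫ t in (0:ℝ)..T, V x t * η t| ≤ C * M * T := by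
  have := intervalIntegral.norm_integral_le_of_norm_le_const (a := (0:ℝ)) (b := T)
    (f := fun t => V x t * η t) (C := C * M) (fun t ht => by
      rw [uIoc_of_le hT] at ht
      rw [norm_mul, Real.norm_eq_abs, Real.norm_eq_abs]
      exact mul_le_mul (hC x t ht.1.le ht.2) (hM t ht.1.le ht.2) (abs_nonneg _)
        ((abs_nonneg _).trans (hC x t ht.1.le ht.2)))
  rw [sub_zero, abs_of_nonneg hT] at this
  simpa using this

/-- Step 1, the estimate for frequency `m = 1 + δ²`. -/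
lemma step1_aux (hS : Sol V Vt Vtt D1 D2) (x : Fin n → ℝ) {δ : ℝ} (hδ : δ ≠ 0) :
    ∫ t in (0:ℝ)..(2 * Real.pi / (1 + δ ^ 2)), V x t * Real.sin ((1 + δ ^ 2) * t)
      ≤ Real.pi ^ 2 * δ ^ 2 := by
  set m : ℝ := 1 + δ ^ 2 with hm
  have hδ2 : 0 < δ ^ 2 := by positivity
  have hm1 : 1 < m := by linarith
  have hm0 : 0 < m := by linarith
  set T : ℝ := 2 * Real.pi / m with hT
  have hTpos : 0 < T := by positivity
  have hmT : m * T = 2 * Real.pi := by rw [hT]; field_simp
  have h1 : ∀ t : ℝ, HasDerivAt (fun t => Real.sin (m * t)) (m * Real.cos (m * t)) t := by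
    intro t
    have := (Real.hasDerivAt_sin (m * t)).comp t ((hasDerivAt_id t).const_mul m)
    refine this.congr_deriv ?_
    simp; ring
  have h2 : ∀ t : ℝ, HasDerivAt (fun t => m * Real.cos (m * t)) (-(m ^ 2 * Real.sin (m * t))) t := by
    intro t
    have := ((Real.hasDerivAt_cos (m * t)).comp t ((hasDerivAt_id t).const_mul m)).const_mul m
    refine this.congr_deriv ?_
    simp; ring
  obtain ⟨C, hC⟩ := hS.bdd T
  have hbd : ∀ x, ∫ t in (0:ℝ)..T, V x t * Real.sin (m * t) ≤ C * 1 * T := fun x =>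
    (le_abs_self _).trans (hS.int_bound hTpos.le hC (fun t _ _ => Real.abs_sin_le_one _) x)
  have hcs : Continuous fun t => Real.sin (m * t) := by fun_prop
  have key := max_principle (c := m ^ 2 - 1) (k := m * (1 - Real.cos T)) (by nlinarith)
    (hS.cont_int hcs T) hbd (fun i x => hS.int_d1 hcs T i x) (fun i x => hS.int_d2 hcs T i x)
    (fun x => by
      rw [hS.lap x h1 h2 (by fun_prop) hTpos.le]
      have e1 : ∫ t in (0:ℝ)..T, V x t * (-(m ^ 2 * Real.sin (m * t)) + Real.sin (m * t))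
          = -(m ^ 2 - 1) * ∫ t in (0:ℝ)..T, V x t * Real.sin (m * t) := by
        rw [← intervalIntegral.integral_const_mul]
        apply intervalIntegral.integral_congr
        intro t _
        simp only []
        ring
      rw [e1, hmT]
      have := hS.low x T hTpos.le
      simp only [Real.sin_two_pi, Real.cos_two_pi, mul_zero, Real.sin_zero]
      nlinarith) x
  refine key.trans ?_
  -- estimate
  have hcos : 1 - Real.cos T ≤ (2 * Real.pi - T) ^ 2 / 2 := by
    have := Real.one_sub_sq_div_two_le_cos (x := 2 * Real.pi - T)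
    rw [Real.cos_two_pi_sub] at this
    linarith
  have hT2 : 2 * Real.pi - T = 2 * Real.pi * δ ^ 2 / m := by
    rw [hT, hm]; field_simp; ring
  rw [hT2] at hcos
  rw [div_le_iff₀ (by nlinarith)]
  have hstep : m * (1 - Real.cos T) ≤ m * ((2 * Real.pi * δ ^ 2 / m) ^ 2 / 2) :=
    mul_le_mul_of_nonneg_left hcos hm0.le
  refine hstep.trans ?_
  have e2 : m * ((2 * Real.pi * δ ^ 2 / m) ^ 2 / 2) = 2 * Real.pi ^ 2 * (δ ^ 2) ^ 2 / m := by
    field_simp
  rw [e2, div_le_iff₀ hm0]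
  have e3 : m ^ 2 - 1 = δ ^ 2 * (2 + δ ^ 2) := by rw [hm]; ring
  rw [e3, hm]
  have hpi : 0 < Real.pi ^ 2 := by positivity
  have : 0 ≤ Real.pi ^ 2 * (δ ^ 2) ^ 2 := by positivity
  have h3 : 0 ≤ Real.pi ^ 2 * (δ ^ 2) ^ 3 := by positivity
  have h4 : 0 ≤ Real.pi ^ 2 * (δ ^ 2) ^ 4 := by positivity
  nlinarith

/-- Step 1: `∫_0^{2π} V sin t dt ≤ 0`. -/
lemma step1 (hS : Sol V Vt Vtt D1 D2) (x : Fin n → ℝ) :
    ∫ t in (0:ℝ)..(2 * Real.pi), V x t * Real.sin t ≤ 0 := by
  have hcont : Continuous fun δ : ℝ =>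
      ∫ t in (0:ℝ)..(2 * Real.pi / (1 + δ ^ 2)), V x t * Real.sin ((1 + δ ^ 2) * t) := by
    apply intervalIntegral.continuous_parametric_intervalIntegral_of_continuous
    · have := hS.contV x
      exact (this.comp continuous_snd).mul (by fun_prop)
    · apply Continuous.div continuous_const (by fun_prop)
      intro δ; positivity
  have hlim : Tendsto (fun δ : ℝ =>
      ∫ t in (0:ℝ)..(2 * Real.pi / (1 + δ ^ 2)), V x t * Real.sin ((1 + δ ^ 2) * t)) (𝓝[≠] 0)
      (𝓝 (∫ t in (0:ℝ)..(2 * Real.pi / (1 + 0 ^ 2)), V x t * Real.sin ((1 + 0 ^ 2) * t))) :=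
    (hcont.tendsto 0).mono_left nhdsWithin_le_nhds
  have hlim2 : Tendsto (fun δ : ℝ => Real.pi ^ 2 * δ ^ 2) (𝓝[≠] 0) (𝓝 (Real.pi ^ 2 * 0 ^ 2)) :=
    ((by fun_prop : Continuous fun δ : ℝ => Real.pi ^ 2 * δ ^ 2).tendsto 0).mono_left
      nhdsWithin_le_nhds
  have := le_of_tendsto_of_tendsto hlim hlim2 (by
    filter_upwards [self_mem_nhdsWithin] with δ hδ using hS.step1_aux x hδ)
  simpa using this

/-- The normal derivative on the boundary is nonnegative. -/
lemma w_nonneg (hS : Sol V Vt Vtt D1 D2) (x : Fin n → ℝ) : 0 ≤ Vt x 0 := by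
  have h1 : HasDerivWithinAt (fun t => V x t + (1 - Real.cos t)) (Vt x 0 + Real.sin 0) (Ici 0) 0 := by
    have := (hS.dt x 0 le_rfl).add
      (((Real.hasDerivAt_cos 0).const_sub 1).hasDerivWithinAt (s := Ici 0))
    refine this.congr_deriv ?_
    simp
  rw [Real.sin_zero, add_zero] at h1
  have h2 := h1.mono (Ioi_subset_Ici_self : Ioi (0:ℝ) ⊆ Ici 0)
  rw [hasDerivWithinAt_iff_tendsto_slope' (by simp)] at h2
  apply ge_of_tendsto h2
  filter_upwards [self_mem_nhdsWithin] with t ht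
  have ht' : (0:ℝ) < t := ht
  rw [slope_def_field, hS.zero x, Real.cos_zero]
  apply div_nonneg _ (by linarith)
  have := hS.low x t ht'.le
  linarith

end Sol

end Pool.Agent.MP_e4c1d4_an
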