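import Pool.Agent.Work.MP_e4c1d4_an.MaxPrinciple

/-! Test functions `q e k x = (1 - e²|x|²)_+^k`, their Laplacian, and integration by parts. -/

open Set Filter Topology MeasureTheory

namespace Pool.Agent.MP_e4c1d4_an

lemma hasDerivAt_max_pow {k : ℕ} (hk : 2 ≤ k) (r : ℝ) :
    HasDerivAt (fun r : ℝ => (max 0 r) ^ k) (k * (max 0 r) ^ (k - 1)) r := by
  rcases lt_trichotomy r 0 with hr | hr | hr
  · have h1 : HasDerivAt (fun _ : ℝ => (0:ℝ)) 0 r := hasDerivAt_const r 0
    have h2 : (k : ℝ) * (max 0 r) ^ (k - 1) = 0 := by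
      rw [max_eq_left hr.le, zero_pow (by omega), mul_zero]
    rw [h2]
    refine h1.congr_of_eventuallyEq ?_
    filter_upwards [Iio_mem_nhds hr] with s hs
    have hs' : s < 0 := hs
    rw [max_eq_left hs'.le, zero_pow (by omega)]
  · subst hr
    have h2 : (k : ℝ) * (max 0 (0:ℝ)) ^ (k - 1) = 0 := by
      rw [max_self, zero_pow (by omega), mul_zero]
    rw [h2, hasDerivAt_iff_isLittleO_nhds_zero]
    simp only [zero_add, max_self, smul_zero, sub_zero]
    rw [zero_pow (by omega)]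
    simp only [sub_zero]
    have hO : (fun h : ℝ => (max 0 h) ^ k) =O[𝓝 0] (fun h : ℝ => h ^ k) := by
      apply Asymptotics.IsBigO.of_bound 1
      filter_upwards with h
      rw [one_mul, norm_pow, norm_pow]
      apply pow_le_pow_left₀ (norm_nonneg _)
      rw [Real.norm_eq_abs, Real.norm_eq_abs]
      rcases le_total 0 h with h0 | h0
      · rw [max_eq_right h0]
      · rw [max_eq_left h0, abs_zero]; exact abs_nonneg _
    exact hO.trans_isLittleO (by
      have := Asymptotics.isLittleO_pow_id (𝕜 := ℝ) (n := k) (by omega)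
      exact this)
  · have h1 : HasDerivAt (fun s : ℝ => s ^ k) (k * r ^ (k - 1)) r := hasDerivAt_pow k r
    rw [max_eq_right hr.le]
    refine h1.congr_of_eventuallyEq ?_
    filter_upwards [Ioi_mem_nhds hr] with s hs
    have hs' : 0 < s := hs
    rw [max_eq_right hs'.le]

variable {n : ℕ}

/-- The test function `(1 - e²|x|²)_+^k`. -/
noncomputable def q (e : ℝ) (k : ℕ) (x : Fin n → ℝ) : ℝ :=
  (max 0 (1 - e ^ 2 * ∑ j, (x j) ^ 2)) ^ k

lemma q_nonneg (e : ℝ) (k : ℕ) (x : Fin n → ℝ) : 0 ≤ q e k x := by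
  unfold q; positivity

lemma q_le_one (e : ℝ) (k : ℕ) (x : Fin n → ℝ) : q e k x ≤ 1 := by
  unfold q
  apply pow_le_one₀ (by positivity)
  apply max_le zero_le_one
  have : 0 ≤ e ^ 2 * ∑ j, (x j) ^ 2 :=
    mul_nonneg (sq_nonneg _) (Finset.sum_nonneg fun j _ => sq_nonneg _)
  linarith

lemma q_continuous (e : ℝ) (k : ℕ) : Continuous (q e k : (Fin n → ℝ) → ℝ) := by
  unfold q; fun_prop

lemma q_zero_of_norm {e : ℝ} (he : 0 < e) {k : ℕ} (hk : k ≠ 0) {x : Fin n → ℝ}
    (hx : x ∉ Metric.closedBall (0 : Fin n → ℝ) (1 / e)) : q e k x = 0 := by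
  rw [mem_closedBall_zero_iff, not_le] at hx
  have h1 := norm_sq_le_sum_sq x
  have h2 : 1 < e * ‖x‖ := by
    rw [div_lt_iff₀ he] at hx; linarith
  have h3 : 1 < e ^ 2 * ∑ j, (x j) ^ 2 := by
    calc (1:ℝ) < (e * ‖x‖) ^ 2 := by nlinarith
      _ = e ^ 2 * ‖x‖ ^ 2 := by ring
      _ ≤ e ^ 2 * ∑ j, (x j) ^ 2 := by gcongr
  unfold q
  rw [max_eq_left (by linarith), zero_pow hk]

lemma q_compact {e : ℝ} (he : 0 < e) {k : ℕ} (hk : k ≠ 0) :
    HasCompactSupport (q e k : (Fin n → ℝ) → ℝ) :=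
  HasCompactSupport.intro (isCompact_closedBall 0 (1 / e)) fun _ hx => q_zero_of_norm he hk hx

lemma q_mul_integrable {e : ℝ} (he : 0 < e) {k : ℕ} (hk : k ≠ 0) {b : (Fin n → ℝ) → ℝ}
    (hb : Continuous b) : Integrable (fun x => q e k x * b x) :=
  ((q_continuous e k).mul hb).integrable_of_hasCompactSupport (q_compact he hk).mul_right

/-- Line derivative of the base. -/
lemma base_line (e : ℝ) (i : Fin n) (x : Fin n → ℝ) :
    HasDerivAt (fun s : ℝ => 1 - e ^ 2 * ∑ j, ((x + s • (Pi.single i 1 : Fin n → ℝ)) j) ^ 2)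
      (-(2 * e ^ 2 * x i)) 0 := by
  simp only [sum_sq_line]
  have h3 : HasDerivAt (fun s : ℝ => 2 * s * x i) (2 * x i) 0 := by
    simpa using ((hasDerivAt_id (0:ℝ)).const_mul 2).mul_const (x i)
  have h4 : HasDerivAt (fun s : ℝ => s ^ 2) (2 * 0) 0 := by
    simpa using hasDerivAt_pow 2 (0:ℝ)
  have := ((((h3.const_add (∑ j, (x j) ^ 2)).add h4).const_mul (e ^ 2)).const_sub 1)
  refine this.congr_deriv ?_
  ring

lemma q_line {e : ℝ} {k : ℕ} (hk : 2 ≤ k) (i : Fin n) (x : Fin n → ℝ) :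
    HasLineDerivAt ℝ (q e k) (-(2 * e ^ 2 * k) * (x i * q e (k - 1) x)) x (Pi.single i 1) := by
  have h1 := base_line e i x
  have h2 := hasDerivAt_max_pow hk (1 - e ^ 2 * ∑ j, ((x + (0:ℝ) • (Pi.single i 1 : Fin n → ℝ)) j) ^ 2)
  have h3 := h2.comp (0:ℝ) h1
  unfold HasLineDerivAt
  refine h3.congr_deriv ?_
  simp only [zero_smul, add_zero, q]
  ring

lemma coord_line (i : Fin n) (x : Fin n → ℝ) :
    HasLineDerivAt ℝ (fun y : Fin n → ℝ => y i) 1 x (Pi.single i 1) := by
  unfold HasLineDerivAt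
  have : HasDerivAt (fun s : ℝ => x i + s) 1 0 := by
    simpa using (hasDerivAt_id (0:ℝ)).const_add (x i)
  refine this.congr_of_eventuallyEq (Filter.Eventually.of_forall fun s => ?_)
  simp

/-- second directional derivative of `q e k`. -/
noncomputable def q2 (e : ℝ) (k : ℕ) (i : Fin n) (x : Fin n → ℝ) : ℝ :=
  -(2 * e ^ 2 * k) * (q e (k - 1) x + x i * (-(2 * e ^ 2 * (k - 1)) * (x i * q e (k - 2) x)))

lemma q_line2 {e : ℝ} {k : ℕ} (hk : 3 ≤ k) (i : Fin n) (x : Fin n → ℝ) :
    HasLineDerivAt ℝ (fun x : Fin n → ℝ => -(2 * e ^ 2 * k) * (x i * q e (k - 1) x)) (q2 e k i x)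
      x (Pi.single i 1) := by
  have h1 := coord_line i x
  have h2 := q_line (e := e) (k := k - 1) (by omega) i x
  unfold HasLineDerivAt at h1 h2 ⊢
  have h3 := (h1.mul h2).const_mul (-(2 * e ^ 2 * k))
  refine h3.congr_deriv ?_
  unfold q2
  have hk1 : ((k - 1 : ℕ) : ℝ) = (k : ℝ) - 1 := by
    rw [Nat.cast_sub (by omega)]; simp
  have hk2 : k - 1 - 1 = k - 2 := by omega
  simp only [zero_smul, add_zero, hk1, hk2, one_mul]

lemma q_rel {e : ℝ} {k : ℕ} (hk : 1 ≤ k) (x : Fin n → ℝ) :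
    e ^ 2 * (∑ j, (x j) ^ 2) * q e k x = q e k x - q e (k + 1) x := by
  unfold q
  rcases le_total (1 - e ^ 2 * ∑ j, (x j) ^ 2) 0 with h | h
  · rw [max_eq_left h, zero_pow (by omega), zero_pow (by omega)]; ring
  · rw [max_eq_right h, pow_succ]; ring

lemma q2_sum {e : ℝ} {k : ℕ} (hk : 3 ≤ k) (x : Fin n → ℝ) :
    ∑ i, q2 e k i x = 4 * e ^ 2 * k * (k - 1) * q e (k - 2) x
      - (4 * k * (k - 1) + 2 * n * k) * e ^ 2 * q e (k - 1) x := by
  have h1 : ∀ i, q2 e k i x = -(2 * e ^ 2 * k) * q e (k - 1) x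
      + (4 * e ^ 2 * k * (k - 1)) * (e ^ 2 * (x i) ^ 2 * q e (k - 2) x) := by
    intro i; unfold q2; ring
  have h2 : k - 2 + 1 = k - 1 := by omega
  have h3 : ∑ i, (4 * e ^ 2 * k * (k - 1)) * (e ^ 2 * (x i) ^ 2 * q e (k - 2) x)
      = (4 * e ^ 2 * k * (k - 1)) * (q e (k - 2) x - q e (k - 1) x) := by
    rw [← Finset.mul_sum, ← Finset.sum_mul, ← Finset.mul_sum, q_rel (by omega), h2]
  rw [Finset.sum_congr rfl (fun i _ => h1 i), Finset.sum_add_distrib, h3]
  simp
  ring

/-- Green's identity for `q e k` against a function with second line derivatives. -/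
lemma green_q {e : ℝ} (he : 0 < e) {k : ℕ} (hk : 3 ≤ k) {b : (Fin n → ℝ) → ℝ}
    {b1 b2 : Fin n → (Fin n → ℝ) → ℝ} (hb : Continuous b) (hb1 : ∀ i, Continuous (b1 i))
    (hb2 : ∀ i, Continuous (b2 i))
    (h1 : ∀ i x, HasLineDerivAt ℝ b (b1 i x) x (Pi.single i 1))
    (h2 : ∀ i x, HasLineDerivAt ℝ (b1 i) (b2 i x) x (Pi.single i 1)) :
    ∫ x, q e k x * ∑ i, b2 i x
      = 4 * e ^ 2 * k * (k - 1) * (∫ x, q e (k - 2) x * b x)
        - (4 * k * (k - 1) + 2 * n * k) * e ^ 2 * (∫ x, q e (k - 1) x * b x) := by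
  have hq1c : ∀ i : Fin n, Continuous fun x : Fin n → ℝ => -(2 * e ^ 2 * k) * (x i * q e (k - 1) x) := by
    intro i
    have := q_continuous (n := n) e (k - 1)
    fun_prop
  have hq2c : ∀ i : Fin n, Continuous (q2 e k i) := by
    intro i
    have h1 := q_continuous (n := n) e (k - 1)
    have h2 := q_continuous (n := n) e (k - 2)
    unfold q2
    fun_prop
  have hq1s : ∀ i : Fin n, HasCompactSupport
      fun x : Fin n → ℝ => -(2 * e ^ 2 * k) * (x i * q e (k - 1) x) := by
    intro i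
    exact HasCompactSupport.intro (isCompact_closedBall 0 (1 / e)) fun x hx => by
      rw [q_zero_of_norm he (by omega) hx]; ring
  have hq2s : ∀ i : Fin n, HasCompactSupport (q2 e k i) := by
    intro i
    exact HasCompactSupport.intro (isCompact_closedBall 0 (1 / e)) fun x hx => by
      unfold q2
      rw [q_zero_of_norm he (by omega) hx, q_zero_of_norm he (by omega) hx]; ring
  have step : ∀ i, ∫ x, q e k x * b2 i x = ∫ x, q2 e k i x * b x := by
    intro i
    have a1 := integral_bilinear_hasLineDerivAt_right_eq_neg_left_of_integrable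
      (μ := (volume : Measure (Fin n → ℝ))) (B := ContinuousLinearMap.mul ℝ ℝ)
      (f := q e k) (f' := fun x => -(2 * e ^ 2 * k) * (x i * q e (k - 1) x))
      (g := b1 i) (g' := b2 i) (v := Pi.single i 1)
      (((hq1c i).mul (hb1 i)).integrable_of_hasCompactSupport (hq1s i).mul_right)
      (q_mul_integrable he (by omega) (hb2 i)) (q_mul_integrable he (by omega) (hb1 i))
      (fun x _ => q_line (by omega) i x) (fun x _ => h2 i x)
    have a2 := integral_bilinear_hasLineDerivAt_right_eq_neg_left_of_integrable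
      (μ := (volume : Measure (Fin n → ℝ))) (B := ContinuousLinearMap.mul ℝ ℝ)
      (f := fun x => -(2 * e ^ 2 * k) * (x i * q e (k - 1) x)) (f' := q2 e k i)
      (g := b) (g' := b1 i) (v := Pi.single i 1)
      (((hq2c i).mul hb).integrable_of_hasCompactSupport (hq2s i).mul_right)
      (((hq1c i).mul (hb1 i)).integrable_of_hasCompactSupport (hq1s i).mul_right)
      (((hq1c i).mul hb).integrable_of_hasCompactSupport (hq1s i).mul_right)
      (fun x _ => q_line2 hk i x) (fun x _ => h1 i x)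
    simp only [ContinuousLinearMap.mul_apply'] at a1 a2
    rw [a1, a2, neg_neg]
  have e1 : ∫ x, q e k x * ∑ i, b2 i x = ∑ i, ∫ x, q e k x * b2 i x := by
    simp only [Finset.mul_sum]
    rw [integral_finsetSum]
    intro i _
    exact q_mul_integrable he (by omega) (hb2 i)
  have e2 : ∑ i, ∫ x, q2 e k i x * b x = ∫ x, (∑ i, q2 e k i x) * b x := by
    simp only [Finset.sum_mul]
    rw [integral_finsetSum]
    intro i _
    exact ((hq2c i).mul hb).integrable_of_hasCompactSupport (hq2s i).mul_right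
  rw [e1, Finset.sum_congr rfl (fun i _ => step i), e2]
  have e3 : ∀ x : Fin n → ℝ, (∑ i, q2 e k i x) * b x
      = (4 * e ^ 2 * k * (k - 1)) * (q e (k - 2) x * b x)
        - ((4 * k * (k - 1) + 2 * n * k) * e ^ 2) * (q e (k - 1) x * b x) := by
    intro x; rw [q2_sum hk]; ring
  simp only [e3]
  rw [integral_sub, integral_const_mul, integral_const_mul]
  · exact (q_mul_integrable he (by omega) hb).const_mul _
  · exact (q_mul_integrable he (by omega) hb).const_mul _

/-- crude bound for integrals against `q`. -/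
lemma q_int_bound {e : ℝ} (he : 0 < e) {k : ℕ} (hk : k ≠ 0) {b : (Fin n → ℝ) → ℝ} {C : ℝ}
    (hC : ∀ x, |b x| ≤ C) : |∫ x, q e k x * b x| ≤ C * (2 * (1 / e)) ^ n := by
  have h1 : ∫ x, q e k x * b x = ∫ x in Metric.closedBall (0 : Fin n → ℝ) (1 / e), q e k x * b x := by
    rw [setIntegral_eq_integral_of_forall_compl_eq_zero]
    intro x hx
    rw [q_zero_of_norm he hk hx, zero_mul]
  have hvol : (volume : Measure (Fin n → ℝ)).real (Metric.closedBall 0 (1 / e))
      = (2 * (1 / e)) ^ n := by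
    rw [measureReal_def, Real.volume_pi_closedBall _ (by positivity)]
    simp [ENNReal.toReal_ofReal, he.le]
  rw [h1]
  have := norm_setIntegral_le_of_norm_le_const (μ := (volume : Measure (Fin n → ℝ)))
    (s := Metric.closedBall 0 (1 / e)) (f := fun x => q e k x * b x) (C := C)
    (by exact measure_closedBall_lt_top) (fun x _ => by
      rw [norm_mul, Real.norm_eq_abs, Real.norm_eq_abs, abs_of_nonneg (q_nonneg _ _ _)]
      calc q e k x * |b x| ≤ 1 * |b x| :=
            mul_le_mul_of_nonneg_right (q_le_one _ _ _) (abs_nonneg _)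
        _ ≤ C := by rw [one_mul]; exact hC x)
  rw [hvol] at this
  exact this

/-- If `∫ q f → 0` along the scale `e = δ / K`, `k = K`, then the nonnegative continuous function
`f` vanishes. -/
lemma eq_zero_of_tendsto {f : (Fin n → ℝ) → ℝ} (hf : Continuous f) (h0 : ∀ x, 0 ≤ f x) {δ : ℝ}
    (hδ : 0 < δ)
    (hlim : Tendsto (fun j : ℕ => ∫ x, q (δ / (2 * j + 1)) (2 * j + 1) x * f x) atTop (𝓝 0)) :
    ∀ x, f x = 0 := by
  by_contra hcon
  push Not at hcon
  obtain ⟨x0, hx0⟩ := hcon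
  have hpos : 0 < f x0 := lt_of_le_of_ne (h0 x0) (Ne.symm hx0)
  obtain ⟨r, hr, hball⟩ : ∃ r > 0, ∀ x ∈ Metric.ball x0 r, f x0 / 2 < f x := by
    have : ∀ᶠ x in 𝓝 x0, f x0 / 2 < f x :=
      hf.continuousAt.eventually (lt_mem_nhds (by linarith))
    obtain ⟨r, hr, h⟩ := Metric.eventually_nhds_iff_ball.mp this
    exact ⟨r, hr, h⟩
  -- bound of sum of squares on the ball
  obtain ⟨R, hR⟩ : ∃ R, ∀ x ∈ Metric.ball x0 r, ∑ j, (x j) ^ 2 ≤ R := by
    obtain ⟨R, hR⟩ := (isCompact_closedBall x0 r).exists_bound_of_continuousOn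
      (f := fun x : Fin n → ℝ => ∑ j, (x j) ^ 2) (by fun_prop)
    refine ⟨R, fun x hx => ?_⟩
    exact (le_abs_self _).trans (hR x (Metric.ball_subset_closedBall hx))
  set m : ℝ := (f x0 / 4) * (volume : Measure (Fin n → ℝ)).real (Metric.ball x0 r) with hm
  have hvol : 0 < (volume : Measure (Fin n → ℝ)).real (Metric.ball x0 r) := by
    rw [measureReal_def]
    exact ENNReal.toReal_pos (Metric.measure_ball_pos _ _ hr).ne' measure_ball_lt_top.ne
  have hmpos : 0 < m := by positivity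
  have hev : ∀ᶠ j : ℕ in atTop, m ≤ ∫ x, q (δ / (2 * j + 1)) (2 * j + 1) x * f x := by
    have hev1 : ∀ᶠ j : ℕ in atTop, 2 * δ ^ 2 * R ≤ (j : ℝ) :=
      tendsto_natCast_atTop_atTop.eventually_ge_atTop _
    filter_upwards [hev1] with j hj
    set K : ℝ := 2 * j + 1 with hK
    have hKpos : 0 < K := by positivity
    have hqlow : ∀ x ∈ Metric.ball x0 r, (1:ℝ) / 2 ≤ q (δ / K) (2 * j + 1) x := by
      intro x hx
      have hs := hR x hx
      have hs0 : 0 ≤ ∑ j, (x j) ^ 2 := Finset.sum_nonneg fun j _ => sq_nonneg _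
      set S := ∑ j, (x j) ^ 2 with hS
      have hsmall : δ ^ 2 * S ≤ K / 4 := by
        have : δ ^ 2 * S ≤ δ ^ 2 * R := by gcongr
        rw [hK]; linarith
      have h1 : (δ / K) ^ 2 * S ≤ 1 / (4 * K) := by
        rw [div_pow, div_mul_eq_mul_div, div_le_div_iff₀ (by positivity) (by positivity)]
        nlinarith
      have hle1 : (1:ℝ) / (4 * K) ≤ 1 := by
        rw [div_le_one (by positivity)]
        have : (0:ℝ) ≤ j := Nat.cast_nonneg j
        rw [hK]; linarith
      have hb := one_add_mul_le_pow (a := -((δ / K) ^ 2 * S)) (by linarith) (2 * j + 1)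
      have h2 : ((2 * j + 1 : ℕ) : ℝ) = K := by rw [hK]; push_cast; ring
      rw [h2] at hb
      have h3 : K * ((δ / K) ^ 2 * S) ≤ 1 / 4 := by
        calc K * ((δ / K) ^ 2 * S) ≤ K * (1 / (4 * K)) := by gcongr
          _ = 1 / 4 := by field_simp
      unfold q
      rw [max_eq_right (by linarith), sub_eq_add_neg]
      linarith
    have hint : Integrable (fun x => q (δ / K) (2 * j + 1) x * f x) :=
      q_mul_integrable (by positivity) (by omega) hf
    calc m = ∫ _x in Metric.ball x0 r, (f x0 / 4) := by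
            rw [setIntegral_const, hm, smul_eq_mul, mul_comm]
      _ ≤ ∫ x in Metric.ball x0 r, q (δ / K) (2 * j + 1) x * f x := by
            apply setIntegral_mono_on
            · exact integrableOn_const (by exact measure_ball_lt_top.ne)
            · exact hint.integrableOn
            · exact measurableSet_ball
            · intro x hx
              have h1 := hqlow x hx
              have h2 := hball x hx
              nlinarith
      _ ≤ ∫ x, q (δ / K) (2 * j + 1) x * f x := by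
            apply setIntegral_le_integral hint
            exact Filter.Eventually.of_forall fun x => mul_nonneg (q_nonneg _ _ _) (h0 x)
  have := ge_of_tendsto hlim hev
  linarith

end Pool.Agent.MP_e4c1d4_an
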