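import Pool.Agent.Work.MP_e4c1d4_an.Sol
import Pool.Agent.Work.MP_e4c1d4_an.TestFun

/-! Step 2: `∂_t V(x,0) = 0` and `V(x,2π) = 0`. -/

open Set Filter Topology MeasureTheory

namespace Pool.Agent.MP_e4c1d4_an

/-- The auxiliary function `ζ` with `ζ'' + ζ = η`, `ζ(2π) = ζ'(2π) = 0`. -/
noncomputable def zeta (η : ℝ → ℝ) (t : ℝ) : ℝ :=
  -(Real.cos t * ∫ s in (2 * Real.pi)..t, Real.sin s * η s)
    + Real.sin t * ∫ s in (2 * Real.pi)..t, Real.cos s * η s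

noncomputable def zeta' (η : ℝ → ℝ) (t : ℝ) : ℝ :=
  Real.sin t * (∫ s in (2 * Real.pi)..t, Real.sin s * η s)
    + Real.cos t * ∫ s in (2 * Real.pi)..t, Real.cos s * η s

lemma zeta_deriv {η : ℝ → ℝ} (hη : Continuous η) (t : ℝ) :
    HasDerivAt (zeta η) (zeta' η t) t := by
  have hS : HasDerivAt (fun t => ∫ s in (2 * Real.pi)..t, Real.sin s * η s)
      (Real.sin t * η t) t := (Real.continuous_sin.mul hη).integral_hasStrictDerivAt _ _ |>.hasDerivAt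
  have hC : HasDerivAt (fun t => ∫ s in (2 * Real.pi)..t, Real.cos s * η s)
      (Real.cos t * η t) t := (Real.continuous_cos.mul hη).integral_hasStrictDerivAt _ _ |>.hasDerivAt
  have := (((Real.hasDerivAt_cos t).mul hS).neg).add ((Real.hasDerivAt_sin t).mul hC)
  refine this.congr_deriv ?_
  unfold zeta'
  ring

lemma zeta'_deriv {η : ℝ → ℝ} (hη : Continuous η) (t : ℝ) :
    HasDerivAt (zeta' η) (η t - zeta η t) t := by
  have hS : HasDerivAt (fun t => ∫ s in (2 * Real.pi)..t, Real.sin s * η s)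
      (Real.sin t * η t) t := (Real.continuous_sin.mul hη).integral_hasStrictDerivAt _ _ |>.hasDerivAt
  have hC : HasDerivAt (fun t => ∫ s in (2 * Real.pi)..t, Real.cos s * η s)
      (Real.cos t * η t) t := (Real.continuous_cos.mul hη).integral_hasStrictDerivAt _ _ |>.hasDerivAt
  have := ((Real.hasDerivAt_sin t).mul hS).add ((Real.hasDerivAt_cos t).mul hC)
  refine this.congr_deriv ?_
  unfold zeta
  have h1 := Real.sin_sq_add_cos_sq t
  linear_combination (η t) * h1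

lemma zeta_cont {η : ℝ → ℝ} (hη : Continuous η) : Continuous (zeta η) :=
  continuous_iff_continuousAt.mpr fun t => (zeta_deriv hη t).continuousAt

lemma zeta_bound {η : ℝ → ℝ} (h1 : ∀ t, 0 ≤ t → t ≤ 2 * Real.pi → |η t| ≤ 1)
    {t : ℝ} (h0 : 0 ≤ t) (h2 : t ≤ 2 * Real.pi) : |zeta η t| ≤ 13 := by
  have hpi : Real.pi < 3.15 := Real.pi_lt_d2
  have hb : ∀ (g : ℝ → ℝ), (∀ s, |g s| ≤ 1) →
      |∫ s in (2 * Real.pi)..t, g s * η s| ≤ 2 * Real.pi := by
    intro g hg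
    have := intervalIntegral.norm_integral_le_of_norm_le_const (a := 2 * Real.pi) (b := t)
      (f := fun s => g s * η s) (C := 1) (fun s hs => by
        rw [uIoc_of_ge h2] at hs
        rw [norm_mul, Real.norm_eq_abs, Real.norm_eq_abs]
        have a1 := hg s
        have a2 := h1 s (h0.trans hs.1.le) hs.2
        calc |g s| * |η s| ≤ 1 * 1 := mul_le_mul a1 a2 (abs_nonneg _) zero_le_one
          _ = 1 := one_mul 1)
    rw [Real.norm_eq_abs, one_mul, abs_sub_comm t,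
      abs_of_nonneg (by linarith : (0:ℝ) ≤ 2 * Real.pi - t)] at this
    linarith
  have hs := hb Real.sin Real.abs_sin_le_one
  have hc := hb Real.cos Real.abs_cos_le_one
  unfold zeta
  calc _ ≤ |-(Real.cos t * ∫ s in (2 * Real.pi)..t, Real.sin s * η s)|
        + |Real.sin t * ∫ s in (2 * Real.pi)..t, Real.cos s * η s| := abs_add_le _ _
    _ ≤ 1 * (2 * Real.pi) + 1 * (2 * Real.pi) := by
        rw [abs_neg, abs_mul, abs_mul]
        have a1 := Real.abs_cos_le_one t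
        have a2 := Real.abs_sin_le_one t
        gcongr
    _ ≤ 13 := by linarith

variable {n : ℕ} {V Vt Vtt : (Fin n → ℝ) → ℝ → ℝ} {D1 D2 : Fin n → (Fin n → ℝ) → ℝ → ℝ}

namespace Sol

/-- `B η x = ∫_0^{2π} V η dt`. -/
noncomputable def B (V : (Fin n → ℝ) → ℝ → ℝ) (η : ℝ → ℝ) (x : Fin n → ℝ) : ℝ :=
  ∫ t in (0:ℝ)..(2 * Real.pi), V x t * η t

/-- the tangential Laplacian of `B η`. -/
noncomputable def LB (D2 : Fin n → (Fin n → ℝ) → ℝ → ℝ) (η : ℝ → ℝ) (x : Fin n → ℝ) : ℝ :=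
  ∑ i, ∫ t in (0:ℝ)..(2 * Real.pi), D2 i x t * η t

/-- bound at level `k`. -/
def Bd (V : (Fin n → ℝ) → ℝ → ℝ) (e : ℝ) (k : ℕ) (A : ℝ) : Prop :=
  ∀ η : ℝ → ℝ, Continuous η → (∀ t, 0 ≤ t → t ≤ 2 * Real.pi → |η t| ≤ 1) →
    |∫ x, q e k x * B V η x| ≤ A

lemma B_cont (hS : Sol V Vt Vtt D1 D2) {η : ℝ → ℝ} (hη : Continuous η) : Continuous (B V η) :=
  hS.cont_int hη _

lemma LB_cont (hS : Sol V Vt Vtt D1 D2) {η : ℝ → ℝ} (hη : Continuous η) : Continuous (LB D2 η) := by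
  unfold LB
  exact continuous_finsetSum _ fun i _ => hS.cont_int2 hη _ i

lemma Bd.scale {e : ℝ} {k : ℕ} {A : ℝ} (h : Bd V e k A) {η : ℝ → ℝ} (hη : Continuous η) {M : ℝ}
    (hM : 0 < M) (hb : ∀ t, 0 ≤ t → t ≤ 2 * Real.pi → |η t| ≤ M) :
    |∫ x, q e k x * B V η x| ≤ M * A := by
  have h1 := h (fun t => M⁻¹ * η t) (by fun_prop) (fun t h0 h2 => by
    rw [abs_mul, abs_of_pos (inv_pos.mpr hM), inv_mul_le_iff₀ hM, mul_one]
    exact hb t h0 h2)
  have h2 : ∀ x, q e k x * B V (fun t => M⁻¹ * η t) x = M⁻¹ * (q e k x * B V η x) := by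
    intro x
    unfold B
    have : ∀ t, V x t * (M⁻¹ * η t) = M⁻¹ * (V x t * η t) := fun t => by ring
    simp only [this]
    rw [intervalIntegral.integral_const_mul]
    ring
  simp only [h2] at h1
  rw [integral_const_mul, abs_mul, abs_of_pos (inv_pos.mpr hM), inv_mul_le_iff₀ hM] at h1
  exact h1

/-- the bound for `∫ q_k Δ(B η)`. -/
lemma lb_bound (hS : Sol V Vt Vtt D1 D2) {e : ℝ} (he : 0 < e) {k : ℕ} (hk : 3 ≤ k) {A : ℝ}
    (hA0 : 0 ≤ A) (hA1 : Bd V e (k - 1) A) (hA2 : Bd V e (k - 2) A) {η : ℝ → ℝ}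
    (hη : Continuous η) {M : ℝ} (hM : 0 < M) (hb : ∀ t, 0 ≤ t → t ≤ 2 * Real.pi → |η t| ≤ M) :
    |∫ x, q e k x * LB D2 η x| ≤ ((8 + 2 * n) * k ^ 2 * e ^ 2) * M * A := by
  have hg := green_q he hk (b := B V η) (hS.B_cont hη) (fun i => hS.cont_int1 hη _ i)
    (fun i => hS.cont_int2 hη _ i) (fun i x => hS.int_d1 hη _ i x) (fun i x => hS.int_d2 hη _ i x)
  have a1 := hA1.scale hη hM hb
  have a2 := hA2.scale hη hM hb
  unfold LB
  rw [hg]
  have hk3 : (3:ℝ) ≤ k := by exact_mod_cast hk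
  have hn : (0:ℝ) ≤ n := Nat.cast_nonneg n
  have hc1 : 0 ≤ 4 * e ^ 2 * k * ((k:ℝ) - 1) := by
    have : (0:ℝ) ≤ (k:ℝ) - 1 := by linarith
    positivity
  have hc2 : 0 ≤ (4 * k * ((k:ℝ) - 1) + 2 * n * k) * e ^ 2 := by
    have : (0:ℝ) ≤ (k:ℝ) - 1 := by linarith
    positivity
  calc _ ≤ |4 * e ^ 2 * k * ((k:ℝ) - 1) * (∫ x, q e (k - 2) x * B V η x)|
        + |(4 * k * ((k:ℝ) - 1) + 2 * n * k) * e ^ 2 * (∫ x, q e (k - 1) x * B V η x)| :=
        abs_sub _ _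
    _ ≤ 4 * e ^ 2 * k * ((k:ℝ) - 1) * (M * A) + (4 * k * ((k:ℝ) - 1) + 2 * n * k) * e ^ 2 * (M * A) := by
        rw [abs_mul (4 * e ^ 2 * k * ((k:ℝ) - 1)),
          abs_mul ((4 * k * ((k:ℝ) - 1) + 2 * n * k) * e ^ 2), abs_of_nonneg hc1,
          abs_of_nonneg hc2]
        exact add_le_add (mul_le_mul_of_nonneg_left a2 hc1) (mul_le_mul_of_nonneg_left a1 hc2)
    _ = ((8 * k * ((k:ℝ) - 1) + 2 * n * k) * e ^ 2) * M * A := by ring
    _ ≤ ((8 + 2 * n) * k ^ 2 * e ^ 2) * M * A := by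
        apply mul_le_mul_of_nonneg_right _ hA0
        apply mul_le_mul_of_nonneg_right _ hM.le
        apply mul_le_mul_of_nonneg_right _ (sq_nonneg e)
        nlinarith

noncomputable def phi (t : ℝ) : ℝ := (Real.pi - t / 2) * Real.cos t + 1 / 2 * Real.sin t

lemma pi_w (hS : Sol V Vt Vtt D1 D2) (x : Fin n → ℝ) :
    LB D2 phi x = Real.pi * Vt x 0 - B V Real.sin x := by
  have h1 : ∀ t : ℝ, HasDerivAt phi (-((Real.pi - t / 2) * Real.sin t)) t := by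
    intro t
    have := ((((hasDerivAt_id t).div_const 2).const_sub Real.pi).mul (Real.hasDerivAt_cos t)).add
      ((Real.hasDerivAt_sin t).const_mul (1 / 2))
    refine this.congr_deriv ?_
    simp only [id]
    ring
  have h2 : ∀ t : ℝ, HasDerivAt (fun t : ℝ => -((Real.pi - t / 2) * Real.sin t))
      (1 / 2 * Real.sin t - (Real.pi - t / 2) * Real.cos t) t := by
    intro t
    have := ((((hasDerivAt_id t).div_const 2).const_sub Real.pi).mul (Real.hasDerivAt_sin t)).neg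
    refine this.congr_deriv ?_
    simp only [id]
    ring
  unfold LB
  rw [hS.lap x h1 h2 (by fun_prop) (by positivity)]
  unfold B
  have e1 : ∫ t in (0:ℝ)..(2 * Real.pi), V x t *
      (1 / 2 * Real.sin t - (Real.pi - t / 2) * Real.cos t + phi t)
      = ∫ t in (0:ℝ)..(2 * Real.pi), V x t * Real.sin t := by
    apply intervalIntegral.integral_congr
    intro t _
    simp only [phi]
    ring
  rw [e1]
  have e2 : phi (2 * Real.pi) = 0 := by unfold phi; simp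
  have e3 : phi 0 = Real.pi := by unfold phi; simp
  rw [e2, e3]
  simp
  ring

lemma phi_cont : Continuous phi := by unfold phi; fun_prop

lemma phi_bound {t : ℝ} (h0 : 0 ≤ t) (h2 : t ≤ 2 * Real.pi) : |phi t| ≤ 4 := by
  have hpi : Real.pi < 3.15 := Real.pi_lt_d2
  unfold phi
  have a1 := Real.abs_cos_le_one t
  have a2 := Real.abs_sin_le_one t
  calc _ ≤ |(Real.pi - t / 2) * Real.cos t| + |1 / 2 * Real.sin t| := abs_add_le _ _
    _ ≤ Real.pi * 1 + 1 / 2 * 1 := by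
        rw [abs_mul, abs_mul]
        have : |Real.pi - t / 2| ≤ Real.pi := by rw [abs_le]; constructor <;> linarith
        rw [abs_of_pos (by norm_num : (0:ℝ) < 1 / 2)]
        gcongr
    _ ≤ 4 := by linarith

lemma w_cont (hS : Sol V Vt Vtt D1 D2) : Continuous fun x => Vt x 0 :=
  hS.cVt.comp (by fun_prop : Continuous fun x : Fin n → ℝ => (x, (0:ℝ)))

/-- bound of `a_k = ∫ q_k w`. -/
lemma a_bound (hS : Sol V Vt Vtt D1 D2) {e : ℝ} (he : 0 < e) {k : ℕ} (hk : 3 ≤ k) {A : ℝ}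
    (hA0 : 0 ≤ A) (hA1 : Bd V e (k - 1) A) (hA2 : Bd V e (k - 2) A) :
    ∫ x, q e k x * Vt x 0 ≤ 2 * ((8 + 2 * n) * k ^ 2 * e ^ 2) * A := by
  have hpi : 3.14 < Real.pi := Real.pi_gt_d2
  have h1 := hS.lb_bound he hk hA0 hA1 hA2 phi_cont (M := 4) (by norm_num)
    (fun t h0 h2 => phi_bound h0 h2)
  have h2 : Real.pi * ∫ x, q e k x * Vt x 0 ≤ ∫ x, q e k x * LB D2 phi x := by
    rw [← integral_const_mul]
    apply integral_mono
    · exact (q_mul_integrable he (by omega) hS.w_cont).const_mul _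
    · exact q_mul_integrable he (by omega) (hS.LB_cont phi_cont)
    · intro x
      simp only []
      have h3 := hS.pi_w x
      have h4 : B V Real.sin x ≤ 0 := hS.step1 x
      have h5 : Real.pi * Vt x 0 ≤ LB D2 phi x := by linarith
      calc Real.pi * (q e k x * Vt x 0) = q e k x * (Real.pi * Vt x 0) := by ring
        _ ≤ _ := mul_le_mul_of_nonneg_left h5 (q_nonneg _ _ _)
  have h3 := (le_abs_self _).trans h1
  have h4 : Real.pi * ∫ x, q e k x * Vt x 0 ≤ ((8 + 2 * n) * k ^ 2 * e ^ 2) * 4 * A := h2.trans h3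
  have h5 : 0 ≤ ((8 + 2 * n) * k ^ 2 * e ^ 2 : ℝ) * A := by positivity
  have h6 : 0 ≤ ∫ x, q e k x * Vt x 0 :=
    integral_nonneg fun x => mul_nonneg (q_nonneg _ _ _) (hS.w_nonneg x)
  nlinarith

lemma zeta_rel (hS : Sol V Vt Vtt D1 D2) {η : ℝ → ℝ} (hη : Continuous η) (x : Fin n → ℝ) :
    B V η x = zeta η 0 * Vt x 0 - LB D2 (zeta η) x := by
  have hz := zeta_cont hη
  unfold LB
  rw [hS.lap x (zeta_deriv hη) (zeta'_deriv hη) (by fun_prop) (by positivity)]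
  unfold B
  have e1 : ∫ t in (0:ℝ)..(2 * Real.pi), V x t * (η t - zeta η t + zeta η t)
      = ∫ t in (0:ℝ)..(2 * Real.pi), V x t * η t := by
    apply intervalIntegral.integral_congr
    intro t _
    simp
  rw [e1]
  have e2 : zeta η (2 * Real.pi) = 0 := by unfold zeta; simp
  have e3 : zeta' η (2 * Real.pi) = 0 := by unfold zeta'; simp
  rw [e2, e3]
  ring

/-- one step of the iteration. -/
lemma Bd_step (hS : Sol V Vt Vtt D1 D2) {e : ℝ} (he : 0 < e) {k : ℕ} (hk : 3 ≤ k) {A : ℝ}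
    (hA0 : 0 ≤ A) (hA1 : Bd V e (k - 1) A) (hA2 : Bd V e (k - 2) A) :
    Bd V e k (39 * ((8 + 2 * n) * k ^ 2 * e ^ 2) * A) := by
  intro η hη hb
  have hz := zeta_cont hη
  have h1 : ∫ x, q e k x * B V η x
      = zeta η 0 * (∫ x, q e k x * Vt x 0) - ∫ x, q e k x * LB D2 (zeta η) x := by
    rw [← integral_const_mul, ← integral_sub]
    · apply integral_congr_ae
      filter_upwards with x
      rw [hS.zeta_rel hη x]; ring
    · exact (q_mul_integrable he (by omega) hS.w_cont).const_mul _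
    · exact q_mul_integrable he (by omega) (hS.LB_cont hz)
  have h2 := hS.lb_bound he hk hA0 hA1 hA2 hz (M := 13) (by norm_num)
    (fun t h0 h2 => zeta_bound hb h0 h2)
  have h3 := hS.a_bound he hk hA0 hA1 hA2
  have h6 : 0 ≤ ∫ x, q e k x * Vt x 0 :=
    integral_nonneg fun x => mul_nonneg (q_nonneg _ _ _) (hS.w_nonneg x)
  have h4 : |zeta η 0| ≤ 13 := zeta_bound hb le_rfl (by positivity)
  rw [h1]
  calc _ ≤ |zeta η 0 * (∫ x, q e k x * Vt x 0)| + |∫ x, q e k x * LB D2 (zeta η) x| := abs_sub _ _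
    _ ≤ 13 * (2 * ((8 + 2 * n) * k ^ 2 * e ^ 2) * A) + ((8 + 2 * n) * k ^ 2 * e ^ 2) * 13 * A := by
        rw [abs_mul, abs_of_nonneg h6]
        have h5 : |zeta η 0| * ∫ x, q e k x * Vt x 0
            ≤ 13 * (2 * ((8 + 2 * n) * k ^ 2 * e ^ 2) * A) :=
          mul_le_mul h4 h3 h6 (by norm_num)
        linarith
    _ = 39 * ((8 + 2 * n) * k ^ 2 * e ^ 2) * A := by ring

lemma V2pi (hS : Sol V Vt Vtt D1 D2) (x : Fin n → ℝ) :
    V x (2 * Real.pi) = LB D2 Real.sin x := by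
  unfold LB
  rw [hS.lap x (η' := Real.cos) (η'' := fun t => -Real.sin t) Real.hasDerivAt_sin
    Real.hasDerivAt_cos (by fun_prop) (by positivity)]
  simp

/-- all the bounds along the iteration. -/
lemma Bd_all (hS : Sol V Vt Vtt D1 D2) {δ : ℝ} (hδ : 0 < δ)
    (hδ2 : 39 * ((8 + 2 * n) * δ ^ 2) ≤ 1 / 2) {C : ℝ} (hC0 : 0 ≤ C)
    (hC : ∀ x t, 0 ≤ t → t ≤ 2 * Real.pi → |V x t| ≤ C) (K : ℕ) (hK : 1 ≤ K) (i : ℕ) :
    ∀ k, 2 * i + 1 ≤ k → k ≤ K →
      Bd V (δ / K) k ((1 / 2) ^ i * (C * 1 * (2 * Real.pi) * (2 * (1 / (δ / K))) ^ n)) := by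
  have hKpos : (0:ℝ) < K := by exact_mod_cast hK
  have he : 0 < δ / K := by positivity
  have hpi := Real.pi_pos
  induction i with
  | zero =>
    intro k hk _ η hη hb
    rw [pow_zero, one_mul]
    exact q_int_bound he (by omega) fun x => hS.int_bound (by positivity) hC hb x
  | succ i ih =>
    intro k hk hkK
    have h1 := ih (k - 1) (by omega) (by omega)
    have h2 := ih (k - 2) (by omega) (by omega)
    set A := (1 / 2) ^ i * (C * 1 * (2 * Real.pi) * (2 * (1 / (δ / K))) ^ n) with hA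
    have hA0 : 0 ≤ A := by positivity
    have h3 := hS.Bd_step he (by omega : 3 ≤ k) hA0 h1 h2
    intro η hη hb
    refine (h3 η hη hb).trans ?_
    have hk0 : (k:ℝ) ≤ K := by exact_mod_cast hkK
    have h4 : (k:ℝ) ^ 2 * (δ / K) ^ 2 ≤ δ ^ 2 := by
      rw [div_pow, mul_div_assoc', div_le_iff₀ (by positivity)]
      have : (k:ℝ) ^ 2 ≤ K ^ 2 := by gcongr
      nlinarith [sq_nonneg δ]
    have h5 : 39 * ((8 + 2 * n) * (k:ℝ) ^ 2 * (δ / K) ^ 2) ≤ 1 / 2 := by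
      have : (0:ℝ) ≤ 8 + 2 * n := by positivity
      calc 39 * ((8 + 2 * n) * (k:ℝ) ^ 2 * (δ / K) ^ 2)
          = 39 * ((8 + 2 * n) * ((k:ℝ) ^ 2 * (δ / K) ^ 2)) := by ring
        _ ≤ 39 * ((8 + 2 * n) * δ ^ 2) := by gcongr
        _ ≤ 1 / 2 := hδ2
    calc 39 * ((8 + 2 * n) * (k:ℝ) ^ 2 * (δ / K) ^ 2) * A ≤ 1 / 2 * A :=
          mul_le_mul_of_nonneg_right h5 hA0
      _ = _ := by rw [hA]; ring

lemma lim_aux (n : ℕ) : Tendsto (fun j : ℕ => (1 / 2 : ℝ) ^ j * (2 * (j + 1 : ℕ) + 1 : ℝ) ^ n)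
    atTop (𝓝 0) := by
  have h1 := tendsto_pow_const_mul_const_pow_of_abs_lt_one n (r := (1/2:ℝ))
    (by rw [abs_of_pos] <;> norm_num)
  have h2 := (tendsto_add_atTop_iff_nat 1).mpr h1
  have h3 := h2.const_mul (2 * 3 ^ n : ℝ)
  rw [mul_zero] at h3
  refine squeeze_zero (fun j => by positivity) (fun j => ?_) h3
  push_cast
  have : (2 * ((j:ℝ) + 1) + 1) ^ n ≤ (3 * ((j:ℝ) + 1)) ^ n := by
    gcongr
    have : (0:ℝ) ≤ j := Nat.cast_nonneg j
    linarith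
  calc (1 / 2 : ℝ) ^ j * (2 * ((j:ℝ) + 1) + 1) ^ n ≤ (1 / 2 : ℝ) ^ j * (3 * ((j:ℝ) + 1)) ^ n := by
        gcongr
    _ = _ := by rw [mul_pow, pow_succ]; ring

/-- Step 2. -/
theorem step2 (hS : Sol V Vt Vtt D1 D2) :
    (∀ x, Vt x 0 = 0) ∧ (∀ x, V x (2 * Real.pi) = 0) := by
  obtain ⟨C, hC⟩ := hS.bdd (2 * Real.pi)
  have hpi := Real.pi_pos
  have hC0 : 0 ≤ C := (abs_nonneg _).trans (hC 0 0 le_rfl (by positivity))
  obtain ⟨δ, hδ, hδ2⟩ : ∃ δ : ℝ, 0 < δ ∧ 39 * ((8 + 2 * n) * δ ^ 2) ≤ 1 / 2 := by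
    have hn : (0:ℝ) ≤ n := Nat.cast_nonneg n
    refine ⟨1 / (39 * (8 + 2 * n) * 2), by positivity, ?_⟩
    have h1 : (1:ℝ) / (39 * (8 + 2 * n) * 2) ≤ 1 := by
      rw [div_le_one (by positivity)]; linarith
    have h2 : (0:ℝ) < 1 / (39 * (8 + 2 * n) * 2) := by positivity
    set d := (1:ℝ) / (39 * (8 + 2 * n) * 2) with hd
    have h3 : 39 * ((8 + 2 * n) * d) = 1 / 2 := by rw [hd]; field_simp
    have h4 : d ^ 2 ≤ d := by nlinarith
    calc 39 * ((8 + 2 * n) * d ^ 2) ≤ 39 * ((8 + 2 * n) * d) := by gcongr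
      _ = 1 / 2 := h3
  set D : ℝ := C * 1 * (2 * Real.pi) * (2 / δ) ^ n with hD
  have hD0 : 0 ≤ D := by positivity
  have hA : ∀ j : ℕ, C * 1 * (2 * Real.pi) * (2 * (1 / (δ / (2 * (j + 1) + 1 : ℕ)))) ^ n
      = D * (2 * (j + 1 : ℕ) + 1 : ℝ) ^ n := by
    intro j
    rw [hD, mul_assoc _ ((2 / δ) ^ n), ← mul_pow]
    congr 2
    push_cast
    field_simp
  -- common facts at level j
  have hlev : ∀ j : ℕ, Bd V (δ / (2 * (j + 1) + 1 : ℕ)) (2 * (j + 1) + 1 - 1)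
        ((1 / 2) ^ j * (D * (2 * (j + 1 : ℕ) + 1 : ℝ) ^ n))
      ∧ Bd V (δ / (2 * (j + 1) + 1 : ℕ)) (2 * (j + 1) + 1 - 2)
        ((1 / 2) ^ j * (D * (2 * (j + 1 : ℕ) + 1 : ℝ) ^ n)) := by
    intro j
    have h1 := hS.Bd_all hδ hδ2 hC0 hC (2 * (j + 1) + 1) (by omega) j (2 * (j + 1) + 1 - 1)
      (by omega) (by omega)
    have h2 := hS.Bd_all hδ hδ2 hC0 hC (2 * (j + 1) + 1) (by omega) j (2 * (j + 1) + 1 - 2)
      (by omega) (by omega)
    rw [hA j] at h1 h2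
    exact ⟨h1, h2⟩
  have hρ : ∀ j : ℕ, (8 + 2 * n) * ((2 * (j + 1) + 1 : ℕ) : ℝ) ^ 2 * (δ / (2 * (j + 1) + 1 : ℕ)) ^ 2
      ≤ 1 := by
    intro j
    have h1 : ((2 * (j + 1) + 1 : ℕ) : ℝ) ≠ 0 := by positivity
    have h2 : (8 + 2 * (n:ℝ)) * ((2 * (j + 1) + 1 : ℕ) : ℝ) ^ 2 * (δ / (2 * (j + 1) + 1 : ℕ)) ^ 2
        = (8 + 2 * n) * δ ^ 2 := by field_simp
    rw [h2]
    have : 0 ≤ (8 + 2 * (n:ℝ)) * δ ^ 2 := by positivity
    linarith
  have hlim0 : Tendsto (fun j : ℕ => 2 * ((1 / 2 : ℝ) ^ j * (D * (2 * (j + 1 : ℕ) + 1 : ℝ) ^ n)))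
      atTop (𝓝 0) := by
    have := (lim_aux n).const_mul (2 * D)
    rw [mul_zero] at this
    refine this.congr fun j => ?_
    ring
  constructor
  · apply eq_zero_of_tendsto hS.w_cont hS.w_nonneg hδ
    rw [← tendsto_add_atTop_iff_nat 1]
    refine squeeze_zero (fun j => integral_nonneg fun x =>
      mul_nonneg (q_nonneg _ _ _) (hS.w_nonneg x)) (fun j => ?_) hlim0
    have hA0 : 0 ≤ (1 / 2 : ℝ) ^ j * (D * (2 * (j + 1 : ℕ) + 1 : ℝ) ^ n) := by positivity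
    have h1 := hS.a_bound (e := δ / (2 * (j + 1) + 1 : ℕ)) (by positivity)
      (by omega : 3 ≤ 2 * (j + 1) + 1) hA0 (hlev j).1 (hlev j).2
    have h2 : (δ / (2 * ((j + 1 : ℕ) : ℝ) + 1)) = δ / (2 * (j + 1) + 1 : ℕ) := by push_cast; ring
    rw [h2]
    refine h1.trans ?_
    apply mul_le_mul_of_nonneg_right _ hA0
    linarith [hρ j]
  · have hv0 : ∀ x, 0 ≤ V x (2 * Real.pi) := by
      intro x
      have := hS.low x (2 * Real.pi) (by positivity)
      simpa using this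
    apply eq_zero_of_tendsto (hS.cV.comp (by fun_prop : Continuous fun x => (x, 2 * Real.pi))) hv0 hδ
    rw [← tendsto_add_atTop_iff_nat 1]
    refine squeeze_zero (fun j => integral_nonneg fun x =>
      mul_nonneg (q_nonneg _ _ _) (hv0 x)) (fun j => ?_) hlim0
    have hA0 : 0 ≤ (1 / 2 : ℝ) ^ j * (D * (2 * (j + 1 : ℕ) + 1 : ℝ) ^ n) := by positivity
    have h1 := hS.lb_bound (e := δ / (2 * (j + 1) + 1 : ℕ)) (by positivity)
      (by omega : 3 ≤ 2 * (j + 1) + 1) hA0 (hlev j).1 (hlev j).2 Real.continuous_sin (M := 1)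
      one_pos (fun t _ _ => Real.abs_sin_le_one t)
    have h2 : (δ / (2 * ((j + 1 : ℕ) : ℝ) + 1)) = δ / (2 * (j + 1) + 1 : ℕ) := by push_cast; ring
    rw [h2]
    simp only [Function.comp, Function.uncurry, hS.V2pi]
    refine ((le_abs_self _).trans h1).trans ?_
    apply mul_le_mul_of_nonneg_right _ hA0
    linarith [hρ j]

end Sol

end Pool.Agent.MP_e4c1d4_an
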