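import Pool.Agent.Work.MP_e4c1d4_an.Step2
import Pool.Agent.Work.MP_e4c1d4_an.Fourier

/-! Step 3: `V = 0` on `0 ≤ t ≤ 2π`, and Step 4: induction. -/

open Set Filter Topology MeasureTheory

namespace Pool.Agent.MP_e4c1d4_an

variable {n : ℕ} {V Vt Vtt : (Fin n → ℝ) → ℝ → ℝ} {D1 D2 : Fin n → (Fin n → ℝ) → ℝ → ℝ}

namespace Sol

lemma Vt2pi (hS : Sol V Vt Vtt D1 D2) (x : Fin n → ℝ) : Vt x (2 * Real.pi) = 0 := by
  have hpi : (0:ℝ) < 2 * Real.pi := by positivity
  have h1 := (hS.dt x (2 * Real.pi) hpi.le).hasDerivAt (Ici_mem_nhds hpi)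
  have h2 := h1.add ((Real.hasDerivAt_cos (2 * Real.pi)).const_sub 1)
  have hmin : IsLocalMin (V x + fun t => 1 - Real.cos t) (2 * Real.pi) := by
    filter_upwards [Ioi_mem_nhds hpi] with t ht
    have ht' : (0:ℝ) < t := ht
    have := hS.low x t ht'.le
    simp only [Pi.add_apply, hS.step2.2 x, Real.cos_two_pi]
    linarith
  have h3 := hmin.hasDerivAt_eq_zero h2
  simpa using h3

/-- generic vanishing of `∫ V η` for eigenfunctions of frequency `m > 1`. -/
lemma mode_zero (hS : Sol V Vt Vtt D1 D2) {m : ℝ} (hm : 1 < m) {η η' : ℝ → ℝ}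
    (h1 : ∀ t, HasDerivAt η (η' t) t) (h2 : ∀ t, HasDerivAt η' (-(m ^ 2 * η t)) t)
    {M : ℝ} (hM : ∀ t, |η t| ≤ M) (x : Fin n → ℝ) : B V η x = 0 := by
  obtain ⟨C, hC⟩ := hS.bdd (2 * Real.pi)
  have hη : Continuous η := continuous_iff_continuousAt.mpr fun t => (h1 t).continuousAt
  have hpi : (0:ℝ) ≤ 2 * Real.pi := by positivity
  have hb : ∀ x, |B V η x| ≤ C * M * (2 * Real.pi) := fun x =>
    hS.int_bound hpi hC (fun t _ _ => hM t) x
  have hlap : ∀ x, LB D2 η x = (m ^ 2 - 1) * B V η x := by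
    intro x
    unfold LB
    rw [hS.lap x h1 h2 (by fun_prop) hpi, hS.Vt2pi x, hS.step2.1 x, hS.step2.2 x]
    unfold B
    have e1 : ∫ t in (0:ℝ)..(2 * Real.pi), V x t * (-(m ^ 2 * η t) + η t)
        = -(m ^ 2 - 1) * ∫ t in (0:ℝ)..(2 * Real.pi), V x t * η t := by
      rw [← intervalIntegral.integral_const_mul]
      apply intervalIntegral.integral_congr
      intro t _
      simp only []
      ring
    rw [e1]
    ring
  have hup := max_principle (c := m ^ 2 - 1) (k := 0) (by nlinarith) (hS.B_cont hη)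
    (fun x => (le_abs_self _).trans (hb x)) (fun i x => hS.int_d1 hη _ i x)
    (fun i x => hS.int_d2 hη _ i x) (fun x => by
      have := hlap x
      unfold LB at this
      rw [this]; linarith) x
  have hlo := max_principle (c := m ^ 2 - 1) (k := 0) (b := fun x => -B V η x)
    (b1 := fun i x => -∫ t in (0:ℝ)..(2 * Real.pi), D1 i x t * η t)
    (b2 := fun i x => -∫ t in (0:ℝ)..(2 * Real.pi), D2 i x t * η t)
    (by nlinarith) (hS.B_cont hη).neg
    (fun x => (neg_le_abs _).trans (hb x))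
    (fun i x => by
      have := hS.int_d1 hη (2 * Real.pi) i x
      unfold HasLineDerivAt at this ⊢
      exact this.neg)
    (fun i x => by
      have := hS.int_d2 hη (2 * Real.pi) i x
      unfold HasLineDerivAt at this ⊢
      exact this.neg) (fun x => by
      have := hlap x
      unfold LB at this
      rw [Finset.sum_neg_distrib, this]; linarith) x
  simp only [zero_div] at hup hlo
  linarith

lemma D2_zero (hS : Sol V Vt Vtt D1 D2) (i : Fin n) (x : Fin n → ℝ) : D2 i x 0 = 0 := by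
  have hD1 : ∀ x, D1 i x 0 = 0 := by
    intro x
    have := hS.d1 i x 0
    unfold HasLineDerivAt at this
    simp only [hS.zero] at this
    exact this.unique (hasDerivAt_const _ _)
  have := hS.d2 i x 0
  unfold HasLineDerivAt at this
  simp only [hD1] at this
  exact this.unique (hasDerivAt_const _ _)

lemma Vtt_zero (hS : Sol V Vt Vtt D1 D2) (x : Fin n → ℝ) : Vtt x 0 = 0 := by
  have := hS.pde x 0 le_rfl
  simpa [hS.D2_zero, hS.zero] using this

/-- Step 3. -/
theorem step3 (hS : Sol V Vt Vtt D1 D2) (x : Fin n → ℝ) (t : ℝ) (h0 : 0 ≤ t)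
    (h1 : t < 2 * Real.pi) : V x t = 0 := by
  have hpi : (0:ℝ) < 2 * Real.pi := by positivity
  have hcos : ∀ m : ℕ, 2 ≤ m → ∫ t in (0:ℝ)..(2 * Real.pi), V x t * Real.cos (m * t) = 0 := by
    intro m hm
    have hm1 : (1:ℝ) < m := by exact_mod_cast (by omega : 1 < m)
    apply hS.mode_zero hm1 (η := fun t => Real.cos (m * t)) (η' := fun t => -(m * Real.sin (m * t)))
      (M := 1)
    · intro t
      have := (Real.hasDerivAt_cos (m * t)).comp t ((hasDerivAt_id t).const_mul (m:ℝ))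
      refine this.congr_deriv ?_
      simp; ring
    · intro t
      have := (((Real.hasDerivAt_sin (m * t)).comp t
        ((hasDerivAt_id t).const_mul (m:ℝ))).const_mul (m:ℝ)).neg
      refine this.congr_deriv ?_
      simp; ring
    · intro t; exact Real.abs_cos_le_one _
  have hsin : ∀ m : ℕ, 2 ≤ m → ∫ t in (0:ℝ)..(2 * Real.pi), V x t * Real.sin (m * t) = 0 := by
    intro m hm
    have hm1 : (1:ℝ) < m := by exact_mod_cast (by omega : 1 < m)
    apply hS.mode_zero hm1 (η := fun t => Real.sin (m * t)) (η' := fun t => m * Real.cos (m * t))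
      (M := 1)
    · intro t
      have := (Real.hasDerivAt_sin (m * t)).comp t ((hasDerivAt_id t).const_mul (m:ℝ))
      refine this.congr_deriv ?_
      simp; ring
    · intro t
      have := (((Real.hasDerivAt_cos (m * t)).comp t
        ((hasDerivAt_id t).const_mul (m:ℝ))).const_mul (m:ℝ))
      refine this.congr_deriv ?_
      simp; ring
    · intro t; exact Real.abs_sin_le_one _
  obtain ⟨A, B', C, hABC⟩ := fourier_trig (hS.contV x)
    (by rw [hS.zero x, hS.step2.2 x]) hcos hsin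
  -- value at zero
  have hA : A + B' = 0 := by
    have := hABC 0 ⟨le_rfl, hpi⟩
    rw [hS.zero x] at this
    simp at this
    linarith
  -- first derivative
  have hd : ∀ t ∈ Ico (0:ℝ) (2 * Real.pi), Vt x t = -(B' * Real.sin t) + C * Real.cos t := by
    intro t ht
    have e1 := (hS.dt x t ht.1).mono (Ico_subset_Ici_self : Ico (0:ℝ) (2 * Real.pi) ⊆ Ici 0)
    have e2 : HasDerivWithinAt (fun t => A + B' * Real.cos t + C * Real.sin t)
        (-(B' * Real.sin t) + C * Real.cos t) (Ico (0:ℝ) (2 * Real.pi)) t := by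
      have := ((((Real.hasDerivAt_cos t).const_mul B').const_add A).add
        ((Real.hasDerivAt_sin t).const_mul C)).hasDerivWithinAt (s := Ico (0:ℝ) (2 * Real.pi))
      refine this.congr_deriv ?_
      ring
    have e3 := e2.congr (fun s hs => hABC s hs) (hABC t ht)
    exact (uniqueDiffOn_Ico 0 (2 * Real.pi) t ht).eq_deriv _ e1 e3
  have hC : C = 0 := by
    have := hd 0 ⟨le_rfl, hpi⟩
    rw [hS.step2.1 x] at this
    simp at this
    linarith
  -- second derivative at zero
  have hB : B' = 0 := by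
    have ht : (0:ℝ) ∈ Ico (0:ℝ) (2 * Real.pi) := ⟨le_rfl, hpi⟩
    have e1 := (hS.dtt x 0 le_rfl).mono (Ico_subset_Ici_self : Ico (0:ℝ) (2 * Real.pi) ⊆ Ici 0)
    have e2 : HasDerivWithinAt (fun t => -(B' * Real.sin t) + C * Real.cos t)
        (-(B' * Real.cos 0) + C * (-Real.sin 0)) (Ico (0:ℝ) (2 * Real.pi)) 0 :=
      ((((Real.hasDerivAt_sin 0).const_mul B').neg).add
        ((Real.hasDerivAt_cos 0).const_mul C)).hasDerivWithinAt (s := Ico (0:ℝ) (2 * Real.pi))
    have e3 := e2.congr (fun s hs => hd s hs) (hd 0 ht)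
    have := (uniqueDiffOn_Ico 0 (2 * Real.pi) 0 ht).eq_deriv _ e1 e3
    rw [hS.Vtt_zero x] at this
    simp at this
    linarith
  rw [hABC t ⟨h0, h1⟩, hC, hB]
  rw [hB] at hA
  linarith

/-- The shifted data. -/
lemma shift (hS : Sol V Vt Vtt D1 D2) :
    Sol (fun x t => V x (t + 2 * Real.pi)) (fun x t => Vt x (t + 2 * Real.pi))
      (fun x t => Vtt x (t + 2 * Real.pi)) (fun i x t => D1 i x (t + 2 * Real.pi))
      (fun i x t => D2 i x (t + 2 * Real.pi)) := by
  have hpi : (0:ℝ) < 2 * Real.pi := by positivity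
  have hcont : Continuous fun p : (Fin n → ℝ) × ℝ => (p.1, p.2 + 2 * Real.pi) := by fun_prop
  have hder : ∀ {g : ℝ → ℝ} {g' t : ℝ}, 0 ≤ t →
      HasDerivWithinAt g g' (Ici 0) (t + 2 * Real.pi) →
      HasDerivWithinAt (fun t => g (t + 2 * Real.pi)) g' (Ici 0) t := by
    intro g g' t ht h
    have h1 := h.hasDerivAt (Ici_mem_nhds (by linarith))
    exact (h1.comp_add_const t (2 * Real.pi)).hasDerivWithinAt
  refine ⟨hS.cV.comp hcont, hS.cVt.comp hcont, hS.cVtt.comp hcont, fun i => (hS.cD1 i).comp hcont,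
    fun i => (hS.cD2 i).comp hcont, ?_, ?_, ?_, ?_, ?_, ?_, ?_, ?_⟩
  · intro x t ht
    exact hder ht (hS.dt x _ (by linarith))
  · intro x t ht
    exact hder ht (hS.dtt x _ (by linarith))
  · intro i x t
    exact hS.d1 i x _
  · intro i x t
    exact hS.d2 i x _
  · intro x t ht
    exact hS.pde x _ (by linarith)
  · intro x
    simpa using hS.step2.2 x
  · intro x t ht
    have := hS.low x (t + 2 * Real.pi) (by linarith)
    rwa [Real.cos_add_two_pi] at this
  · intro T
    obtain ⟨C, hC⟩ := hS.bdd (T + 2 * Real.pi)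
    exact ⟨C, fun x t h0 h1 => hC x _ (by linarith) (by linarith)⟩

end Sol

/-- `V` vanishes identically. -/
theorem main_aux {n : ℕ} (k : ℕ) : ∀ {V Vt Vtt : (Fin n → ℝ) → ℝ → ℝ}
    {D1 D2 : Fin n → (Fin n → ℝ) → ℝ → ℝ} (_ : Sol V Vt Vtt D1 D2) (x : Fin n → ℝ) (t : ℝ),
    0 ≤ t → t < k * (2 * Real.pi) → V x t = 0 := by
  induction k with
  | zero =>
    intro V Vt Vtt D1 D2 _ x t h0 h1
    simp at h1
    linarith
  | succ k ih =>
    intro V Vt Vtt D1 D2 hS x t h0 h1
    by_cases h2 : t < 2 * Real.pi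
    · exact hS.step3 x t h0 h2
    · push Not at h2
      have := ih hS.shift x (t - 2 * Real.pi) (by linarith) (by
        push_cast at h1
        linarith)
      simpa using this

theorem main {n : ℕ} {V Vt Vtt : (Fin n → ℝ) → ℝ → ℝ}
    {D1 D2 : Fin n → (Fin n → ℝ) → ℝ → ℝ} (hS : Sol V Vt Vtt D1 D2) (x : Fin n → ℝ) (t : ℝ)
    (h0 : 0 ≤ t) : V x t = 0 := by
  obtain ⟨k, hk⟩ := exists_nat_gt (t / (2 * Real.pi))
  have hpi : (0:ℝ) < 2 * Real.pi := by positivity
  rw [div_lt_iff₀ hpi] at hk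
  exact main_aux k hS x t h0 hk

end Pool.Agent.MP_e4c1d4_an
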